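import Mathlib

/-!
# Generating sets with certificates of bounded degree

Let `S` be a set of nonzero vectors of `V = F_p^n` which is a union of arbitrarily many sets
`Z \ {0}`, each `Z` the common zero set of polynomials whose degrees add up to at most `D`. If the
Cayley graph of `V` with generating set `S` has a proper colouring with `C` colours (or only an
independent set with at least `|V| / C` elements), then `S` is covered by the nonzero sets of
`C^2 p^(D+2)` linear forms, a number which does not depend on `n`.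

Proof. Let `A` be an independent set, `|A| ≥ |V| / C`, and `N = p^(D+2)`.

(1) Energy increment. Let `b(ξ)` be the square of the absolute value of the Fourier coefficient of
`A` at `ξ`, `L` a subspace of the dual space, `W` its orthogonal complement. If at least
`|W| / (N - 1)` elements `w` of `W` are not differences of elements of `A`, then for these `w` the sum
of `b(ξ) e(ξ w)` over `ξ ∉ L` is minus the sum of `b` over `L`; comparing with the mean square over
`W` one finds a coset `θ + L ≠ L` with large mass, and the mass of `L + F_p θ` exceeds that of `L` by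
a fixed amount. After at most `C^2 N` steps one finds `W`, defined by `C^2 N` linear forms, in which
fewer than `|W| / (N - 1)` elements are not differences of `A`.

(2) If some `s ∈ S` is in `W`, let `Z` be its algebraic set, and `x_i` a coordinate with `s_i ≠ 0`.
By the theorem of Chevalley and Warning, for all `v_1, ..., v_(D+2)` in `W` some
`t ∈ F_p^(D+2)`, `t ≠ 0`, has `s + ∑ t_j v_j ∈ Z` with the same coordinate `x_i = s_i`. Averaging
over the `v_j` one finds at least `|W| / (N - 1)` such points of `W`; they are in `S`, so they are not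
differences of `A`, a contradiction. So no `s ∈ S` is in `W`: the linear forms cover `S`.
-/

set_option autoImplicit false

namespace Pool.Agent.Results.MP_e4b685_co.AlgebraicSets

open Finset MvPolynomial

variable {p n : ℕ} [Fact p.Prime]

/-! ### Substitution of an affine map -/

/-- the polynomial `F (z + ∑ t_j v_j)` in the variables `t` -/
noncomputable def subst {k : ℕ} (z : Fin n → ZMod p) (v : Fin k → Fin n → ZMod p)
    (F : MvPolynomial (Fin n) (ZMod p)) : MvPolynomial (Fin k) (ZMod p) :=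
  bind₁ (fun i => C (z i) + ∑ j, C (v j i) * X j) F

theorem eval_subst {k : ℕ} (z : Fin n → ZMod p) (v : Fin k → Fin n → ZMod p)
    (F : MvPolynomial (Fin n) (ZMod p)) (t : Fin k → ZMod p) :
    eval t (subst z v F) = eval (z + ∑ j, t j • v j) F := by
  unfold subst
  induction F using MvPolynomial.induction_on with
  | C a => simp
  | add P Q hP hQ => rw [map_add, map_add, map_add, hP, hQ]
  | mul_X P i hP =>
    rw [map_mul, map_mul, map_mul, hP, bind₁_X_right, eval_X]
    congr 1
    simp [map_sum, Finset.sum_apply, mul_comm]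

theorem totalDegree_subst {k : ℕ} (z : Fin n → ZMod p) (v : Fin k → Fin n → ZMod p)
    (F : MvPolynomial (Fin n) (ZMod p)) : (subst z v F).totalDegree ≤ F.totalDegree := by
  have h1 : ∀ i, (C (z i) + ∑ j, C (v j i) * X j :
      MvPolynomial (Fin k) (ZMod p)).totalDegree ≤ 1 := by
    intro i
    refine (totalDegree_add _ _).trans (max_le (by simp) ?_)
    refine (totalDegree_finsetSum _ _).trans (Finset.sup_le fun j _ => ?_)
    refine (totalDegree_mul _ _).trans ?_
    simp
  unfold subst
  rw [bind₁, aeval_def, eval₂_eq]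
  refine (totalDegree_finsetSum _ _).trans (Finset.sup_le fun m hm => ?_)
  refine (totalDegree_mul _ _).trans ?_
  have h2 : (algebraMap (ZMod p) (MvPolynomial (Fin k) (ZMod p)) (coeff m F)).totalDegree = 0 := by
    rw [MvPolynomial.algebraMap_eq, totalDegree_C]
  rw [h2, zero_add]
  refine (totalDegree_finsetProd _ _).trans ?_
  refine le_trans (Finset.sum_le_sum fun i _ => ?_) (le_totalDegree hm)
  refine (totalDegree_pow _ _).trans ?_
  exact (Nat.mul_le_mul_left _ (h1 i)).trans (by simp)

/-! ### Level sets in subspaces are large -/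

open Classical in
/-- Chevalley-Warning: some `t ≠ 0` gives a point of the level set of `z` -/
theorem exists_ne_zero {ι : Type} [Fintype ι] (F : ι → MvPolynomial (Fin n) (ZMod p)) {k : ℕ}
    (hF : ∑ i, (F i).totalDegree < k) (z : Fin n → ZMod p) (v : Fin k → Fin n → ZMod p) :
    ∃ t : Fin k → ZMod p, t ≠ 0 ∧ ∀ i, eval (z + ∑ j, t j • v j) (F i) = eval z (F i) := by
  have h1 : p ∣ Fintype.card {t : Fin k → ZMod p //
      ∀ i, eval t (subst z v (F i) - C (eval z (F i))) = 0} := by
    have h0 : ∑ i, (subst z v (F i) - C (eval z (F i))).totalDegree ≤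
        ∑ i, (F i).totalDegree := by
      refine Finset.sum_le_sum fun i _ => ?_
      refine (totalDegree_sub _ _).trans (max_le (totalDegree_subst z v (F i)) ?_)
      simp
    exact char_dvd_card_solutions_of_fintype_sum_lt p (K := ZMod p)
      (f := fun i => subst z v (F i) - C (eval z (F i)))
      (lt_of_le_of_lt h0 (by simpa using hF))
  by_contra hcon
  push Not at hcon
  have h2 : Fintype.card {t : Fin k → ZMod p //
      ∀ i, eval t (subst z v (F i) - C (eval z (F i))) = 0} = 1 := by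
    rw [Fintype.card_eq_one_iff]
    refine ⟨⟨0, fun i => by rw [map_sub, eval_subst]; simp⟩, ?_⟩
    rintro ⟨t, ht⟩
    ext1
    by_contra h3
    obtain ⟨i, hi⟩ := hcon t h3
    refine hi ?_
    have := ht i
    rw [map_sub, eval_subst, eval_C, sub_eq_zero] at this
    exact this
  rw [h2, Nat.dvd_one] at h1
  exact (Fact.out : p.Prime).one_lt.ne' h1

open Classical in
/-- double counting: a random affine substitution is uniformly distributed -/
theorem card_shift (W : Submodule (ZMod p) (Fin n → ZMod p)) (P : (Fin n → ZMod p) → Prop)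
    {z : Fin n → ZMod p} (hz : z ∈ W) {k : ℕ} {t : Fin k → ZMod p} (ht : t ≠ 0) :
    Fintype.card W * (∑ v : Fin k → W, if P (z + ∑ j, t j • (v j : Fin n → ZMod p)) then 1 else 0)
      = Fintype.card (Fin k → W) * ∑ w : W, if P w then 1 else 0 := by
  obtain ⟨j0, hj0⟩ : ∃ j, t j ≠ 0 := by
    by_contra h
    push Not at h
    exact ht (funext h)
  have h1 : ∀ u : W, (∑ v : Fin k → W, if P (z + ∑ j, t j • (v j : Fin n → ZMod p)) then 1 else 0)
      = ∑ v : Fin k → W, if P (z + ∑ j, t j • (v j : Fin n → ZMod p) + u) then 1 else 0 := by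
    intro u
    rw [← Equiv.sum_comp (Equiv.addRight (Pi.single j0 ((t j0)⁻¹ • u) : Fin k → W))]
    refine Finset.sum_congr rfl fun v _ => ?_
    have h2 : z + ∑ j, t j • (((Equiv.addRight (Pi.single j0 ((t j0)⁻¹ • u) : Fin k → W)) v j :
        W) : Fin n → ZMod p) = z + ∑ j, t j • (v j : Fin n → ZMod p) + u := by
      rw [add_assoc]
      congr 1
      simp only [Equiv.coe_addRight, Pi.add_apply, Submodule.coe_add, smul_add,
        Finset.sum_add_distrib]
      congr 1
      rw [Finset.sum_eq_single j0]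
      · rw [Pi.single_eq_same, Submodule.coe_smul, smul_smul, mul_inv_cancel₀ hj0, one_smul]
      · intro j _ hj
        rw [Pi.single_eq_of_ne hj]
        simp
      · simp
    rw [h2]
  have h3 : ∀ v : Fin k → W,
      (∑ u : W, if P (z + ∑ j, t j • (v j : Fin n → ZMod p) + u) then 1 else 0)
      = ∑ w : W, if P w then 1 else 0 := by
    intro v
    have hmem : z + ∑ j, t j • (v j : Fin n → ZMod p) ∈ W :=
      W.add_mem hz (Submodule.sum_mem _ fun j _ => W.smul_mem _ (v j).2)
    rw [← Equiv.sum_comp (Equiv.addLeft (⟨_, hmem⟩ : W)) (fun w : W => if P w then 1 else 0)]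
    rfl
  calc Fintype.card W *
        (∑ v : Fin k → W, if P (z + ∑ j, t j • (v j : Fin n → ZMod p)) then 1 else 0)
      = ∑ u : W, ∑ v : Fin k → W,
          if P (z + ∑ j, t j • (v j : Fin n → ZMod p) + u) then 1 else 0 := by
        rw [← Finset.sum_congr rfl fun u _ => h1 u, Finset.sum_const, Finset.card_univ,
          smul_eq_mul]
    _ = ∑ v : Fin k → W, ∑ w : W, if P w then 1 else 0 := by
        rw [Finset.sum_comm]
        exact Finset.sum_congr rfl fun v _ => h3 v
    _ = _ := by rw [Finset.sum_const, Finset.card_univ, smul_eq_mul]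

open Classical in
/-- the number of elements of `W` with the property `P` -/
noncomputable def cntP (W : Submodule (ZMod p) (Fin n → ZMod p)) (P : (Fin n → ZMod p) → Prop) :
    ℕ := ∑ w : W, if P w then 1 else 0

open Classical in
theorem card_level {ι : Type} [Fintype ι] (F : ι → MvPolynomial (Fin n) (ZMod p)) {k : ℕ}
    (hF : ∑ i, (F i).totalDegree < k) (W : Submodule (ZMod p) (Fin n → ZMod p))
    {z : Fin n → ZMod p} (hz : z ∈ W) (P : (Fin n → ZMod p) → Prop)
    (hP : ∀ x, (∀ i, eval x (F i) = eval z (F i)) → P x) :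
    Nat.card W ≤ (p ^ k - 1) * cntP W P := by
  rw [Nat.card_eq_fintype_card, cntP]
  set Z : ℕ := ∑ w : W, if P w then 1 else 0 with hZ
  have h1 : Fintype.card (Fin k → W) ≤ ∑ t ∈ (univ.erase (0 : Fin k → ZMod p)),
      ∑ v : Fin k → W, if P (z + ∑ j, t j • (v j : Fin n → ZMod p)) then 1 else 0 := by
    rw [Finset.sum_comm, ← Finset.card_univ, Finset.card_eq_sum_ones]
    refine Finset.sum_le_sum fun v _ => ?_
    obtain ⟨t, ht0, ht⟩ := exists_ne_zero F hF z (fun j => (v j : Fin n → ZMod p))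
    calc 1 = if P (z + ∑ j, t j • (v j : Fin n → ZMod p)) then 1 else 0 := by
          rw [if_pos (hP _ ht)]
      _ ≤ _ := Finset.single_le_sum (f := fun t : Fin k → ZMod p =>
          if P (z + ∑ j, t j • (v j : Fin n → ZMod p)) then 1 else 0)
          (fun _ _ => Nat.zero_le _) (Finset.mem_erase.2 ⟨ht0, Finset.mem_univ _⟩)
  have h2 : Fintype.card W * Fintype.card (Fin k → W) ≤
      (p ^ k - 1) * (Fintype.card (Fin k → W) * Z) := by
    refine (Nat.mul_le_mul_left _ h1).trans ?_
    rw [Finset.mul_sum]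
    have h4 : ∀ t ∈ univ.erase (0 : Fin k → ZMod p), Fintype.card W *
        (∑ v : Fin k → W, if P (z + ∑ j, t j • (v j : Fin n → ZMod p)) then 1 else 0) ≤
        Fintype.card (Fin k → W) * Z := fun t ht =>
      (card_shift W P hz (Finset.ne_of_mem_erase ht)).le
    refine (Finset.sum_le_card_nsmul _ _ _ h4).trans ?_
    rw [smul_eq_mul]
    refine Nat.mul_le_mul_right _ ?_
    rw [Finset.card_erase_of_mem (Finset.mem_univ _), Finset.card_univ]
    simp [ZMod.card]
  have h3 : 0 < Fintype.card (Fin k → W) := Fintype.card_pos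
  refine Nat.le_of_mul_le_mul_left ?_ h3
  calc _ = Fintype.card W * Fintype.card (Fin k → W) := mul_comm _ _
    _ ≤ _ := h2
    _ = _ := by ring

/-! ### Fourier analysis -/

/-- the character `x ↦ e(ξ x / p)` -/
noncomputable def e (ξ x : Fin n → ZMod p) : ℂ := ZMod.stdAddChar (ξ ⬝ᵥ x)

theorem e_add_right (ξ x y : Fin n → ZMod p) : e ξ (x + y) = e ξ x * e ξ y := by
  unfold e
  rw [dotProduct_add, AddChar.map_add_eq_mul]

theorem e_comm (ξ x : Fin n → ZMod p) : e ξ x = e x ξ := by
  unfold e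
  rw [dotProduct_comm]

theorem e_add_left (ξ η x : Fin n → ZMod p) : e (ξ + η) x = e ξ x * e η x := by
  rw [e_comm, e_add_right, e_comm x ξ, e_comm x η]

theorem e_conj (ξ x : Fin n → ZMod p) : (starRingEnd ℂ) (e ξ x) = e ξ (-x) := by
  unfold e
  rw [dotProduct_neg, ZMod.stdAddChar_apply, ZMod.stdAddChar_apply, AddChar.map_neg_eq_inv,
    ← Circle.coe_inv_eq_conj, Circle.coe_inv]

/-- the orthogonal complement -/
def perp (L : Submodule (ZMod p) (Fin n → ZMod p)) : Submodule (ZMod p) (Fin n → ZMod p) where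
  carrier := {w | ∀ ξ ∈ L, ξ ⬝ᵥ w = 0}
  add_mem' := by
    intro a b ha hb ξ hξ
    rw [dotProduct_add, ha ξ hξ, hb ξ hξ, add_zero]
  zero_mem' := by
    intro ξ _
    rw [dotProduct_zero]
  smul_mem' := by
    intro c a ha ξ hξ
    rw [dotProduct_smul, ha ξ hξ, smul_zero]

theorem e_eq_one {L : Submodule (ZMod p) (Fin n → ZMod p)} {ξ w : Fin n → ZMod p} (hξ : ξ ∈ L)
    (hw : w ∈ perp L) : e ξ w = 1 := by
  unfold e
  rw [hw ξ hξ, AddChar.map_zero_eq_one]

/-- the double complement -/
theorem exists_perp {L : Submodule (ZMod p) (Fin n → ZMod p)} {η : Fin n → ZMod p}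
    (hη : η ∉ L) : ∃ w ∈ perp L, η ⬝ᵥ w ≠ 0 := by
  obtain ⟨f, hf, hL⟩ := Submodule.exists_dual_map_eq_bot_of_notMem hη inferInstance
  have h1 : ∀ x : Fin n → ZMod p, x ⬝ᵥ (fun i => f (Pi.single i 1)) = f x := by
    intro x
    have h2 : x = ∑ i, x i • (Pi.single i 1 : Fin n → ZMod p) := by
      ext j
      simp [Finset.sum_apply, Pi.single_apply]
    conv_rhs => rw [h2]
    rw [map_sum]
    simp [dotProduct]
  refine ⟨fun i => f (Pi.single i 1), fun ξ hξ => ?_, ?_⟩
  · rw [h1]
    have : f ξ ∈ L.map f := Submodule.mem_map_of_mem hξ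
    rw [hL, Submodule.mem_bot] at this
    exact this
  · rw [h1]
    exact hf

open Classical in
theorem sum_perp {L : Submodule (ZMod p) (Fin n → ZMod p)} (η : Fin n → ZMod p) :
    ∑ w : perp L, e η w = if η ∈ L then (Nat.card (perp L) : ℂ) else 0 := by
  by_cases h : η ∈ L
  · rw [if_pos h, Finset.sum_congr rfl fun w _ => e_eq_one h w.2, Nat.card_eq_fintype_card]
    simp
  · rw [if_neg h]
    obtain ⟨w0, hw0, hne⟩ := exists_perp h
    let ψ : AddChar (perp L) ℂ :=
      { toFun := fun w => e η w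
        map_zero_eq_one' := by simp [e]
        map_add_eq_mul' := fun a b => by
          rw [Submodule.coe_add, e_add_right] }
    have h1 : ψ ≠ 0 := by
      intro h2
      have h3 : ψ ⟨w0, hw0⟩ = 1 := by rw [h2]; rfl
      have h4 : (ZMod.stdAddChar (η ⬝ᵥ w0) : ℂ) = 1 := h3
      rw [← (ZMod.stdAddChar (N := p)).map_zero_eq_one, ZMod.injective_stdAddChar.eq_iff] at h4
      exact hne h4
    exact AddChar.sum_eq_zero_iff_ne_zero.2 h1

open Classical in
theorem sum_all (x : Fin n → ZMod p) :
    ∑ ξ : Fin n → ZMod p, e ξ x = if x = 0 then (Fintype.card (Fin n → ZMod p) : ℂ) else 0 := by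
  by_cases h : x = 0
  · rw [if_pos h, h]
    simp [e]
  · rw [if_neg h]
    let ψ : AddChar (Fin n → ZMod p) ℂ :=
      { toFun := fun ξ => e ξ x
        map_zero_eq_one' := by simp [e]
        map_add_eq_mul' := fun a b => e_add_left a b x }
    have h1 : ψ ≠ 0 := by
      intro h2
      obtain ⟨i, hi⟩ : ∃ i, x i ≠ 0 := by
        by_contra h5
        push Not at h5
        exact h (funext h5)
      have h3 : ψ (Pi.single i 1) = 1 := by rw [h2]; rfl
      have h4 : (ZMod.stdAddChar ((Pi.single i 1 : Fin n → ZMod p) ⬝ᵥ x) : ℂ) = 1 := h3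
      rw [← (ZMod.stdAddChar (N := p)).map_zero_eq_one, ZMod.injective_stdAddChar.eq_iff] at h4
      rw [single_one_dotProduct] at h4
      exact hi h4
    exact AddChar.sum_eq_zero_iff_ne_zero.2 h1

/-- the spectrum of a set -/
noncomputable def hat (A : Finset (Fin n → ZMod p)) (ξ : Fin n → ZMod p) : ℂ := ∑ a ∈ A, e ξ a

/-- the energy at a frequency -/
noncomputable def b (A : Finset (Fin n → ZMod p)) (ξ : Fin n → ZMod p) : ℝ :=
  Complex.normSq (hat A ξ)

theorem b_nonneg (A : Finset (Fin n → ZMod p)) (ξ : Fin n → ZMod p) : 0 ≤ b A ξ :=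
  Complex.normSq_nonneg _

theorem b_eq (A : Finset (Fin n → ZMod p)) (ξ : Fin n → ZMod p) :
    (b A ξ : ℂ) = ∑ a ∈ A, ∑ a' ∈ A, e ξ (a - a') := by
  rw [b, Complex.normSq_eq_conj_mul_self, mul_comm, hat, map_sum, Finset.sum_mul_sum]
  refine Finset.sum_congr rfl fun a _ => Finset.sum_congr rfl fun a' _ => ?_
  rw [e_conj, ← e_add_right, sub_eq_add_neg]

theorem b_zero (A : Finset (Fin n → ZMod p)) : b A 0 = (#A : ℝ) ^ 2 := by
  have h1 : hat A 0 = (#A : ℂ) := by
    simp [hat, e]
  rw [b, h1, Complex.normSq_natCast, sq]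

open Classical in
theorem sum_b_mul (A : Finset (Fin n → ZMod p)) (w : Fin n → ZMod p) :
    ∑ ξ, (b A ξ : ℂ) * e ξ w =
      Fintype.card (Fin n → ZMod p) * ∑ a ∈ A, ∑ a' ∈ A, if a' = a + w then (1 : ℂ) else 0 := by
  calc ∑ ξ, (b A ξ : ℂ) * e ξ w = ∑ ξ, ∑ a ∈ A, ∑ a' ∈ A, e ξ (a - a' + w) := by
        refine Finset.sum_congr rfl fun ξ _ => ?_
        rw [b_eq, Finset.sum_mul]
        refine Finset.sum_congr rfl fun a _ => ?_
        rw [Finset.sum_mul]
        refine Finset.sum_congr rfl fun a' _ => ?_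
        rw [← e_add_right]
    _ = ∑ a ∈ A, ∑ a' ∈ A, ∑ ξ, e ξ (a - a' + w) := by
        rw [Finset.sum_comm]
        refine Finset.sum_congr rfl fun a _ => ?_
        rw [Finset.sum_comm]
    _ = _ := by
        rw [Finset.mul_sum]
        refine Finset.sum_congr rfl fun a _ => ?_
        rw [Finset.mul_sum]
        refine Finset.sum_congr rfl fun a' _ => ?_
        rw [sum_all]
        by_cases h : a' = a + w
        · rw [if_pos h, if_pos (by rw [h]; abel), mul_one]
        · rw [if_neg h, if_neg, mul_zero]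
          intro h1
          apply h
          have : a' = a + w - (a - a' + w) := by abel
          rw [this, h1, sub_zero]

theorem sum_b (A : Finset (Fin n → ZMod p)) :
    ∑ ξ, b A ξ = Fintype.card (Fin n → ZMod p) * #A := by
  classical
  have h1 := sum_b_mul A 0
  have h2 : ∀ ξ : Fin n → ZMod p, e ξ 0 = 1 := fun ξ => by simp [e]
  simp only [h2, mul_one, add_zero] at h1
  have h3 : ∀ a ∈ A, (∑ a' ∈ A, if a' = a then (1 : ℂ) else 0) = 1 := by
    intro a ha
    rw [Finset.sum_ite_eq' A a]
    simp [ha]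
  rw [Finset.sum_congr rfl h3] at h1
  simp only [Finset.sum_const, nsmul_eq_mul, mul_one] at h1
  exact_mod_cast h1

theorem sum_b_eq_zero (A : Finset (Fin n → ZMod p)) {w : Fin n → ZMod p}
    (hw : ∀ a ∈ A, a + w ∉ A) : ∑ ξ, (b A ξ : ℂ) * e ξ w = 0 := by
  classical
  rw [sum_b_mul]
  rw [Finset.sum_eq_zero, mul_zero]
  intro a ha
  refine Finset.sum_eq_zero fun a' ha' => ?_
  rw [if_neg]
  rintro rfl
  exact hw a ha ha'

open Classical in
/-- the mass of the coset `θ + L` -/
noncomputable def mass (A : Finset (Fin n → ZMod p)) (L : Submodule (ZMod p) (Fin n → ZMod p))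
    (θ : Fin n → ZMod p) : ℝ := ∑ ξ ∈ univ.filter (fun ξ => θ - ξ ∈ L), b A ξ

theorem mass_nonneg (A : Finset (Fin n → ZMod p)) (L : Submodule (ZMod p) (Fin n → ZMod p))
    (θ : Fin n → ZMod p) : 0 ≤ mass A L θ := Finset.sum_nonneg fun _ _ => b_nonneg _ _

theorem mass_le (A : Finset (Fin n → ZMod p)) (L : Submodule (ZMod p) (Fin n → ZMod p))
    (θ : Fin n → ZMod p) : mass A L θ ≤ Fintype.card (Fin n → ZMod p) * #A := by
  classical
  rw [← sum_b A]
  exact Finset.sum_le_sum_of_subset_of_nonneg (Finset.filter_subset _ _)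
    fun _ _ _ => b_nonneg _ _

theorem le_mass_zero (A : Finset (Fin n → ZMod p))
    (L : Submodule (ZMod p) (Fin n → ZMod p)) : (#A : ℝ) ^ 2 ≤ mass A L 0 := by
  classical
  rw [← b_zero A]
  exact Finset.single_le_sum (f := fun ξ => b A ξ) (fun _ _ => b_nonneg _ _)
    (Finset.mem_filter.2 ⟨Finset.mem_univ _, by simp⟩)

open Classical in
/-- the part of the spectrum outside `L` -/
noncomputable def g (A : Finset (Fin n → ZMod p)) (L : Submodule (ZMod p) (Fin n → ZMod p))
    (w : Fin n → ZMod p) : ℂ := ∑ ξ ∈ univ.filter (fun ξ => ξ ∉ L), (b A ξ : ℂ) * e ξ w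

theorem g_eq (A : Finset (Fin n → ZMod p)) {L : Submodule (ZMod p) (Fin n → ZMod p)}
    {w : Fin n → ZMod p} (hL : w ∈ perp L) (hw : ∀ a ∈ A, a + w ∉ A) :
    g A L w = -(mass A L 0 : ℂ) := by
  classical
  have h1 := sum_b_eq_zero A hw
  rw [← Finset.sum_filter_add_sum_filter_not univ (fun ξ => ξ ∈ L)] at h1
  rw [eq_neg_iff_add_eq_zero, ← h1, add_comm, g]
  congr 1
  rw [mass, Complex.ofReal_sum]
  refine Finset.sum_congr ?_ fun ξ hξ => ?_
  · ext ξ
    simp
  · rw [Finset.mem_filter] at hξ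
    rw [e_eq_one _ hL, mul_one]
    simpa using hξ.2

open Classical in
theorem sum_normSq (A : Finset (Fin n → ZMod p)) (L : Submodule (ZMod p) (Fin n → ZMod p)) :
    ∑ w : perp L, Complex.normSq (g A L w) =
      Nat.card (perp L) * ∑ ξ ∈ univ.filter (fun ξ => ξ ∉ L), b A ξ * mass A L ξ := by
  have h1 : ∀ w : Fin n → ZMod p, (Complex.normSq (g A L w) : ℂ) =
      ∑ ξ ∈ univ.filter (fun ξ => ξ ∉ L), ∑ ξ' ∈ univ.filter (fun ξ => ξ ∉ L),
        (b A ξ : ℂ) * (b A ξ' : ℂ) * e (ξ - ξ') w := by
    intro w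
    rw [Complex.normSq_eq_conj_mul_self, mul_comm, g, map_sum, Finset.sum_mul_sum]
    refine Finset.sum_congr rfl fun ξ _ => Finset.sum_congr rfl fun ξ' _ => ?_
    rw [map_mul, Complex.conj_ofReal, e_conj, sub_eq_add_neg, e_add_left,
      show e (-ξ') w = e ξ' (-w) from by unfold e; rw [neg_dotProduct, dotProduct_neg]]
    ring
  have h2 : ((∑ w : perp L, Complex.normSq (g A L w) : ℝ) : ℂ) =
      ((Nat.card (perp L) * ∑ ξ ∈ univ.filter (fun ξ => ξ ∉ L), b A ξ * mass A L ξ : ℝ) :
        ℂ) := by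
    rw [Complex.ofReal_sum, Finset.sum_congr rfl fun (w : perp L) _ => h1 (w : Fin n → ZMod p),
      Finset.sum_comm]
    rw [Complex.ofReal_mul, Complex.ofReal_sum, Finset.mul_sum]
    refine Finset.sum_congr rfl fun ξ hξ => ?_
    rw [Finset.sum_comm, Complex.ofReal_mul, mass, Complex.ofReal_sum, Finset.mul_sum,
      Finset.mul_sum]
    rw [← Finset.sum_filter_add_sum_filter_not (univ.filter (fun ξ' => ξ' ∉ L))
      (fun ξ' => ξ - ξ' ∈ L)]
    rw [Finset.sum_eq_zero (s := Finset.filter (fun x => ¬ (ξ - x ∈ L)) _), add_zero]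
    · refine Finset.sum_congr ?_ fun ξ' hξ' => ?_
      · ext ξ'
        simp only [Finset.mem_filter, Finset.mem_univ, true_and] at hξ ⊢
        constructor
        · exact fun h => h.2
        · intro h
          refine ⟨fun h3 => hξ ?_, h⟩
          have := L.add_mem h h3
          rwa [sub_add_cancel] at this
      · rw [← Finset.mul_sum, sum_perp, if_pos (Finset.mem_filter.1 hξ').2]
        push_cast
        ring
    · intro ξ' hξ'
      rw [← Finset.mul_sum, sum_perp, if_neg (Finset.mem_filter.1 hξ').2, mul_zero]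
  exact_mod_cast h2

/-- the number of elements of `W` which are not differences of elements of `A` -/
noncomputable def cnt (A : Finset (Fin n → ZMod p)) (W : Submodule (ZMod p) (Fin n → ZMod p)) :
    ℕ := cntP W fun w => ∀ a ∈ A, a + w ∉ A

theorem key (A : Finset (Fin n → ZMod p)) (hA : A.Nonempty)
    (L : Submodule (ZMod p) (Fin n → ZMod p)) {M : ℝ} (hM0 : 0 < M)
    (hM : ∀ θ, θ ∉ L → mass A L θ ≤ M) :
    (cnt A (perp L) : ℝ) * (#A : ℝ) ^ 3 <
      Nat.card (perp L) * M * Fintype.card (Fin n → ZMod p) := by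
  classical
  have hA0 : (0 : ℝ) < #A := by exact_mod_cast hA.card_pos
  have hW : (0 : ℝ) < Nat.card (perp L) := by exact_mod_cast Nat.card_pos
  have h1 : (cnt A (perp L) : ℝ) * (#A : ℝ) ^ 4 ≤
      ∑ w : perp L, Complex.normSq (g A L w) := by
    unfold cnt cntP
    push_cast
    rw [Finset.sum_mul]
    refine Finset.sum_le_sum fun w _ => ?_
    by_cases h : ∀ a ∈ A, a + (w : Fin n → ZMod p) ∉ A
    · rw [if_pos h, one_mul, g_eq A w.2 h, Complex.normSq_neg, Complex.normSq_ofReal]
      have := le_mass_zero A L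
      nlinarith [sq_nonneg (#A : ℝ)]
    · rw [if_neg h, zero_mul]
      exact Complex.normSq_nonneg _
  have h2 : ∑ ξ ∈ univ.filter (fun ξ => ξ ∉ L), b A ξ * mass A L ξ ≤
      (∑ ξ ∈ univ.filter (fun ξ => ξ ∉ L), b A ξ) * M := by
    rw [Finset.sum_mul]
    exact Finset.sum_le_sum fun ξ hξ =>
      mul_le_mul_of_nonneg_left (hM ξ (Finset.mem_filter.1 hξ).2) (b_nonneg _ _)
  have h3 : ∑ ξ ∈ univ.filter (fun ξ => ξ ∉ L), b A ξ <
      Fintype.card (Fin n → ZMod p) * #A := by
    have h4 := Finset.sum_filter_add_sum_filter_not univ (fun ξ => ξ ∈ L) (fun ξ => b A ξ)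
    rw [sum_b] at h4
    have h5 : (#A : ℝ) ^ 2 ≤ ∑ ξ ∈ univ.filter (fun ξ => ξ ∈ L), b A ξ := by
      rw [← b_zero A]
      exact Finset.single_le_sum (f := fun ξ => b A ξ) (fun _ _ => b_nonneg _ _)
        (Finset.mem_filter.2 ⟨Finset.mem_univ _, L.zero_mem⟩)
    have h6 : (0 : ℝ) < (#A : ℝ) ^ 2 := by positivity
    linarith
  rw [sum_normSq] at h1
  have h7 : (cnt A (perp L) : ℝ) * (#A : ℝ) ^ 4 <
      Nat.card (perp L) * M * Fintype.card (Fin n → ZMod p) * #A := by
    calc _ ≤ (Nat.card (perp L) : ℝ) *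
          ∑ ξ ∈ univ.filter (fun ξ => ξ ∉ L), b A ξ * mass A L ξ := h1
      _ ≤ Nat.card (perp L) * ((∑ ξ ∈ univ.filter (fun ξ => ξ ∉ L), b A ξ) * M) :=
          mul_le_mul_of_nonneg_left h2 hW.le
      _ < Nat.card (perp L) * ((Fintype.card (Fin n → ZMod p) * #A) * M) :=
          mul_lt_mul_of_pos_left (mul_lt_mul_of_pos_right h3 hM0) hW
      _ = _ := by ring
  refine lt_of_mul_lt_mul_right ?_ hA0.le
  calc _ = (cnt A (perp L) : ℝ) * (#A : ℝ) ^ 4 := by ring
    _ < _ := h7

/-- one step of the energy increment -/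
theorem step (A : Finset (Fin n → ZMod p)) {L : Submodule (ZMod p) (Fin n → ZMod p)}
    {θ : Fin n → ZMod p} (hθ : θ ∉ L) :
    mass A L 0 + mass A L θ ≤ mass A (Submodule.span (ZMod p) {θ} ⊔ L) 0 := by
  classical
  unfold mass
  rw [← Finset.sum_union]
  · refine Finset.sum_le_sum_of_subset_of_nonneg ?_ fun _ _ _ => b_nonneg _ _
    intro ξ hξ
    rw [Finset.mem_union, Finset.mem_filter, Finset.mem_filter] at hξ
    rw [Finset.mem_filter]
    refine ⟨Finset.mem_univ _, ?_⟩
    rcases hξ with h | h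
    · exact Submodule.mem_sup_right h.2
    · have h1 : (0 : Fin n → ZMod p) - ξ = -θ + (θ - ξ) := by abel
      rw [h1]
      exact Submodule.add_mem _ (Submodule.neg_mem _ (Submodule.mem_sup_left
        (Submodule.mem_span_singleton_self θ))) (Submodule.mem_sup_right h.2)
  · rw [Finset.disjoint_left]
    intro ξ h1 h2
    rw [Finset.mem_filter] at h1 h2
    apply hθ
    have h3 := L.sub_mem h2.2 h1.2
    rwa [show θ - ξ - (0 - ξ) = θ by abel] at h3

/-- few elements of `perp L` are not differences of elements of `A` -/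
def Few (A : Finset (Fin n → ZMod p)) (δ : ℝ) (L : Submodule (ZMod p) (Fin n → ZMod p)) : Prop :=
  (cnt A (perp L) : ℝ) < δ * Nat.card (perp L)

theorem increment (A : Finset (Fin n → ZMod p)) (hA : A.Nonempty) {δ : ℝ} (hδ : 0 < δ) (k : ℕ) :
    ∃ l : Fin k → Fin n → ZMod p, Few A δ (Submodule.span (ZMod p) (Set.range l)) ∨
      k * (δ * (#A : ℝ) ^ 3 / Fintype.card (Fin n → ZMod p)) ≤
        mass A (Submodule.span (ZMod p) (Set.range l)) 0 := by
  classical
  have hA0 : (0 : ℝ) < #A := by exact_mod_cast hA.card_pos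
  have hV : (0 : ℝ) < Fintype.card (Fin n → ZMod p) := by exact_mod_cast Fintype.card_pos
  set M : ℝ := δ * (#A : ℝ) ^ 3 / Fintype.card (Fin n → ZMod p) with hM
  have hM0 : 0 < M := by positivity
  induction k with
  | zero =>
    refine ⟨Fin.elim0, Or.inr ?_⟩
    rw [Nat.cast_zero, zero_mul]
    exact mass_nonneg _ _ _
  | succ k ih =>
    obtain ⟨l, hl⟩ := ih
    by_cases hf : Few A δ (Submodule.span (ZMod p) (Set.range l))
    · refine ⟨Fin.cons 0 l, Or.inl ?_⟩
      rw [Fin.range_cons, Submodule.span_insert_zero]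
      exact hf
    · have hl2 := hl.resolve_left hf
      obtain ⟨θ, hθ, hθM⟩ : ∃ θ, θ ∉ Submodule.span (ZMod p) (Set.range l) ∧
          M < mass A (Submodule.span (ZMod p) (Set.range l)) θ := by
        by_contra hcon
        push Not at hcon
        have h1 := key A hA _ hM0 hcon
        apply hf
        unfold Few
        have h2 : (Nat.card (perp (Submodule.span (ZMod p) (Set.range l))) : ℝ) * M *
            Fintype.card (Fin n → ZMod p) =
            (δ * Nat.card (perp (Submodule.span (ZMod p) (Set.range l)))) * (#A : ℝ) ^ 3 := by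
          rw [hM]
          field_simp
        rw [h2] at h1
        exact lt_of_mul_lt_mul_right h1 (by positivity)
      refine ⟨Fin.cons θ l, Or.inr ?_⟩
      rw [Fin.range_cons, Submodule.span_insert]
      have h3 := step A hθ
      push_cast
      linarith

theorem exists_few (A : Finset (Fin n → ZMod p)) {C N : ℕ}
    (hC : Fintype.card (Fin n → ZMod p) ≤ C * #A) (hN : 2 ≤ N) :
    ∃ l : Fin (C ^ 2 * N) → Fin n → ZMod p,
      Few A (1 / ((N : ℝ) - 1)) (Submodule.span (ZMod p) (Set.range l)) := by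
  have hV0 : 0 < Fintype.card (Fin n → ZMod p) := Fintype.card_pos
  have hV : (0 : ℝ) < Fintype.card (Fin n → ZMod p) := by exact_mod_cast hV0
  have hA : A.Nonempty := by
    rw [← Finset.card_pos]
    by_contra h
    have h1 : #A = 0 := by omega
    rw [h1, mul_zero] at hC
    omega
  have hA0 : (0 : ℝ) < #A := by exact_mod_cast hA.card_pos
  have hN1 : (0 : ℝ) < (N : ℝ) - 1 := by
    have : (2 : ℝ) ≤ N := by exact_mod_cast hN
    linarith
  obtain ⟨l, hl | hl⟩ := increment A hA (δ := 1 / ((N : ℝ) - 1)) (by positivity) (C ^ 2 * N)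
  · exact ⟨l, hl⟩
  · exfalso
    have h1 := hl.trans (mass_le A _ 0)
    have hC' : (Fintype.card (Fin n → ZMod p) : ℝ) ≤ C * #A := by exact_mod_cast hC
    have h2 : (Fintype.card (Fin n → ZMod p) : ℝ) ^ 2 ≤ (C : ℝ) ^ 2 * (#A : ℝ) ^ 2 := by
      rw [← mul_pow]
      exact pow_le_pow_left₀ hV.le hC' 2
    have h3 : ((C ^ 2 * N : ℕ) : ℝ) * (1 / ((N : ℝ) - 1) * (#A : ℝ) ^ 3 /
        Fintype.card (Fin n → ZMod p)) = ((C : ℝ) ^ 2 * (#A : ℝ) ^ 2) * #A * N /
        (((N : ℝ) - 1) * Fintype.card (Fin n → ZMod p)) := by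
      push_cast
      field_simp
    rw [h3, div_le_iff₀ (by positivity)] at h1
    have h4 : (Fintype.card (Fin n → ZMod p) : ℝ) ^ 2 * #A * N ≤
        ((C : ℝ) ^ 2 * (#A : ℝ) ^ 2) * #A * N := by
      gcongr
    have h5 : (Fintype.card (Fin n → ZMod p) : ℝ) * #A *
        (((N : ℝ) - 1) * Fintype.card (Fin n → ZMod p)) <
        (Fintype.card (Fin n → ZMod p) : ℝ) ^ 2 * #A * N := by
      have : (Fintype.card (Fin n → ZMod p) : ℝ) ^ 2 * #A * N -
        (Fintype.card (Fin n → ZMod p) : ℝ) * #A *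
        (((N : ℝ) - 1) * Fintype.card (Fin n → ZMod p)) =
        (Fintype.card (Fin n → ZMod p) : ℝ) ^ 2 * #A := by ring
      have h6 : (0 : ℝ) < (Fintype.card (Fin n → ZMod p) : ℝ) ^ 2 * #A := by positivity
      linarith
    linarith

/-- one of the classes of a colouring is large -/
theorem exists_class {C : ℕ} (f : (Fin n → ZMod p) → Fin C) :
    ∃ c : Fin C, Fintype.card (Fin n → ZMod p) ≤ C * #(univ.filter (fun x => f x = c)) := by
  by_contra h
  push Not at h
  have hC : Nonempty (Fin C) := ⟨f 0⟩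
  have h1 : ∑ c : Fin C, C * #(univ.filter (fun x => f x = c)) <
      ∑ _c : Fin C, Fintype.card (Fin n → ZMod p) :=
    Finset.sum_lt_sum_of_nonempty Finset.univ_nonempty fun c _ => h c
  rw [← Finset.mul_sum, ← Finset.card_eq_sum_card_fiberwise (fun x _ => Finset.mem_univ (f x)),
    Finset.sum_const, smul_eq_mul, Finset.card_univ, Finset.card_univ, Fintype.card_fin] at h1
  exact lt_irrefl _ h1

/-- Let `S` be a set of vectors in `F_p^n` such that every `s ∈ S` lies in the common zero set `Z`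
of finitely many polynomials whose degrees add up to at most `D`, with `Z \ {0} ⊆ S`; in other
words, `S` is a union of arbitrarily many sets `Z \ {0}`, `Z` an algebraic set of complexity at
most `D`. Suppose that the Cayley graph of `F_p^n` with generating set `S` has a proper colouring
with `C` colours, or only an independent set `A` of at least `p^n / C` vertices. Then `S` is
covered by the nonzero sets of `C^2 p^(D+2)` linear forms. -/
theorem result (p : ℕ) [Fact p.Prime] (C D n : ℕ) (S : Set (Fin n → ZMod p))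
    (hS : ∀ s ∈ S, ∃ (k : ℕ) (F : Fin k → MvPolynomial (Fin n) (ZMod p)),
      ∑ i, (F i).totalDegree ≤ D ∧ (∀ i, MvPolynomial.eval s (F i) = 0) ∧
        ∀ x, x ≠ 0 → (∀ i, MvPolynomial.eval x (F i) = 0) → x ∈ S)
    (h : (∃ f : (Fin n → ZMod p) → Fin C, ∀ x, ∀ s ∈ S, f (x + s) ≠ f x) ∨
      ∃ A : Finset (Fin n → ZMod p), p ^ n ≤ C * A.card ∧ ∀ a ∈ A, ∀ s ∈ S, a + s ∉ A) :
    ∃ l : Fin (C ^ 2 * p ^ (D + 2)) → Fin n → ZMod p,
      ∀ s ∈ S, ∃ j, ∑ i, l j i * s i ≠ 0 := by
  classical
  -- the independent set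
  obtain ⟨A, hc, hAS⟩ : ∃ A : Finset (Fin n → ZMod p),
      Fintype.card (Fin n → ZMod p) ≤ C * #A ∧ ∀ a ∈ A, ∀ s ∈ S, a + s ∉ A := by
    rcases h with ⟨f, hf⟩ | ⟨A, hA, hAS⟩
    · obtain ⟨c, hc⟩ := exists_class f
      refine ⟨univ.filter (fun x => f x = c), hc, fun a ha s hs has => ?_⟩
      rw [Finset.mem_filter] at ha has
      exact hf a s hs (has.2.trans ha.2.symm)
    · refine ⟨A, ?_, hAS⟩
      rw [Fintype.card_fun, ZMod.card, Fintype.card_fin]
      exact hA
  have hA1 : A.Nonempty := by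
    rw [← Finset.card_pos]
    by_contra h0
    have h1 : #A = 0 := by omega
    rw [h1, mul_zero] at hc
    have h2 : 0 < Fintype.card (Fin n → ZMod p) := Fintype.card_pos
    omega
  have hp2 : 2 ≤ p ^ (D + 2) :=
    (Fact.out : p.Prime).two_le.trans (Nat.le_self_pow (by omega) p)
  obtain ⟨l, hl⟩ := exists_few A hc hp2
  refine ⟨l, fun s hs => ?_⟩
  by_contra hcon
  push Not at hcon
  have hsW : s ∈ perp (Submodule.span (ZMod p) (Set.range l)) := by
    intro ξ hξ
    induction hξ using Submodule.span_induction with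
    | mem x hx =>
      obtain ⟨j, rfl⟩ := hx
      exact hcon j
    | zero => rw [zero_dotProduct]
    | add x y _ _ hx hy => rw [add_dotProduct, hx, hy, add_zero]
    | smul a x _ hx => rw [smul_dotProduct, hx, smul_zero]
  -- a coordinate which is not zero at `s`
  obtain ⟨i0, hi0⟩ : ∃ i, s i ≠ 0 := by
    by_contra h0
    push Not at h0
    have h1 : s = 0 := funext h0
    obtain ⟨a, ha⟩ := hA1
    refine hAS a ha s hs ?_
    rwa [h1, add_zero]
  obtain ⟨k, F, hF, hFs, hFS⟩ := hS s hs
  let G : Option (Fin k) → MvPolynomial (Fin n) (ZMod p) := fun o => o.elim (X i0) F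
  have hG : ∑ i, (G i).totalDegree < D + 2 := by
    rw [Fintype.sum_option]
    have h1 : (G none).totalDegree ≤ 1 := (totalDegree_X (R := ZMod p) i0).le
    have h2 : ∑ i, (G (some i)).totalDegree ≤ D := hF
    omega
  have h1 : Nat.card (perp (Submodule.span (ZMod p) (Set.range l))) ≤
      (p ^ (D + 2) - 1) * cnt A (perp (Submodule.span (ZMod p) (Set.range l))) := by
    refine card_level G hG _ hsW (fun w => ∀ a ∈ A, a + w ∉ A) ?_
    intro w hw a ha
    have h2 : w ≠ 0 := by
      rintro rfl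
      have h3 := hw none
      apply hi0
      have h4 : (0 : Fin n → ZMod p) i0 = s i0 := by simpa [G] using h3
      rw [← h4]
      rfl
    exact hAS a ha w (hFS w h2 fun i => (hw (some i)).trans (hFs i))
  unfold Few at hl
  have h2 : (Nat.card (perp (Submodule.span (ZMod p) (Set.range l))) : ℝ) ≤
      (((p ^ (D + 2) : ℕ) : ℝ) - 1) *
        (cnt A (perp (Submodule.span (ZMod p) (Set.range l))) : ℝ) := by
    have h3 : ((p ^ (D + 2) - 1 : ℕ) : ℝ) = ((p ^ (D + 2) : ℕ) : ℝ) - 1 := by
      rw [Nat.cast_sub (by omega), Nat.cast_one]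
    rw [← h3]
    exact_mod_cast h1
  have hpos : (0 : ℝ) < ((p ^ (D + 2) : ℕ) : ℝ) - 1 := by
    have : (2 : ℝ) ≤ ((p ^ (D + 2) : ℕ) : ℝ) := by exact_mod_cast hp2
    linarith
  have h4 := mul_lt_mul_of_pos_left hl hpos
  rw [← mul_assoc, mul_one_div, div_self hpos.ne', one_mul] at h4
  linarith

end Pool.Agent.Results.MP_e4b685_co.AlgebraicSets
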