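import Mathlib

/-!
Cayley graphs on `F_p^n` of circular chromatic number below `4` (for instance the `3`-colourable
ones): their generating set misses a hyperplane.
-/

set_option autoImplicit false

namespace Pool.Agent.Results.MP_e4b685_co.CircularBelowFour

variable {V : Type*} [AddCommGroup V] {a : ℕ}

/-- The step of a colouring along `x → x + s`, lifted to the integers. -/
def step (f : V → ZMod a) (x s : V) : ℤ := ((f (x + s) - f x).val : ℤ)

/-- The total lifted step along the walk starting at `y` with the given list of steps. -/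
def walk (f : V → ZMod a) : V → List V → ℤ
  | _, [] => 0
  | y, s :: L => step f y s + walk f (y + s) L

lemma step_cast [NeZero a] (f : V → ZMod a) (x s : V) :
    ((step f x s : ℤ) : ZMod a) = f (x + s) - f x := by
  simp [step]

lemma walk_cast [NeZero a] (f : V → ZMod a) (L : List V) (y : V) :
    ((walk f y L : ℤ) : ZMod a) = f (y + L.sum) - f y := by
  induction L generalizing y with
  | nil => simp [walk]
  | cons s L ih =>
    simp only [walk, Int.cast_add, step_cast, ih, List.sum_cons]
    rw [add_assoc y s]
    ring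

variable {S : Set V} {b : ℕ}

/-- The commutation square of two generators carries no holonomy. -/
lemma square [NeZero a] (f : V → ZMod a) (hab : a < 4 * b) (hba : b ≤ a)
    (hf : ∀ x, ∀ s ∈ S, b ≤ (f (x + s) - f x).val ∧ (f (x + s) - f x).val ≤ a - b)
    {s t : V} (hs : s ∈ S) (ht : t ∈ S) (x : V) :
    step f x s + step f (x + s) t = step f x t + step f (x + t) s := by
  have h1 := hf x s hs
  have h2 := hf (x + s) t ht
  have h3 := hf x t ht
  have h4 := hf (x + t) s hs
  have hd : (((step f x s + step f (x + s) t) - (step f x t + step f (x + t) s) : ℤ) : ZMod a)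
      = 0 := by
    push_cast
    simp only [step_cast]
    rw [add_right_comm x t s]
    ring
  rw [ZMod.intCast_zmod_eq_zero_iff_dvd] at hd
  have habs : |(step f x s + step f (x + s) t) - (step f x t + step f (x + t) s)| < (a : ℤ) := by
    unfold step
    rw [abs_lt]
    omega
  have := Int.eq_zero_of_abs_lt_dvd hd habs
  omega

lemma walk_translate [NeZero a] (f : V → ZMod a) (hab : a < 4 * b) (hba : b ≤ a)
    (hf : ∀ x, ∀ s ∈ S, b ≤ (f (x + s) - f x).val ∧ (f (x + s) - f x).val ≤ a - b)
    {t : V} (ht : t ∈ S) (L : List V) (hL : ∀ s ∈ L, s ∈ S) (y : V) :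
    walk f (y + t) L + step f y t = walk f y L + step f (y + L.sum) t := by
  induction L generalizing y with
  | nil => simp [walk]
  | cons s L ih =>
    have hs : s ∈ S := hL s (by simp)
    have h1 := ih (fun u hu => hL u (by simp [hu])) (y + s)
    have h2 := square f hab hba hf hs ht y
    simp only [walk, List.sum_cons]
    rw [← add_assoc y s, add_right_comm y t s]
    linarith

lemma walk_const [NeZero a] (f : V → ZMod a) (hab : a < 4 * b) (hba : b ≤ a)
    (hf : ∀ x, ∀ s ∈ S, b ≤ (f (x + s) - f x).val ∧ (f (x + s) - f x).val ≤ a - b)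
    (L : List V) (hL : ∀ s ∈ L, s ∈ S) (h0 : L.sum = 0) {g : V}
    (hg : g ∈ AddSubgroup.closure S) : ∀ y, walk f (y + g) L = walk f y L := by
  induction hg using AddSubgroup.closure_induction with
  | mem t ht =>
    intro y
    have := walk_translate f hab hba hf ht L hL y
    rw [h0, add_zero] at this
    linarith
  | zero => intro y; simp
  | add g h _ _ ihg ihh => intro y; rw [← add_assoc, ihh, ihg]
  | neg g _ ih => intro y; rw [← ih (y + -g)]; simp

lemma sum_walk (f : V → ZMod a) (G : AddSubgroup V) [Fintype G] (L : List V)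
    (hL : ∀ s ∈ L, s ∈ G) :
    ∑ g : G, walk f (g : V) L = (L.map fun s => ∑ g : G, step f (g : V) s).sum := by
  induction L with
  | nil => simp [walk]
  | cons s L ih =>
    have hs : s ∈ G := hL s (by simp)
    simp only [walk, List.map_cons, List.sum_cons, Finset.sum_add_distrib]
    rw [← ih (fun u hu => hL u (by simp [hu]))]
    congr 1
    exact Fintype.sum_equiv (Equiv.addRight (⟨s, hs⟩ : G)) _ _ (fun g => by simp)

/-- The holonomy of a closed walk is the average of the holonomies of its steps. -/
lemma closed_walk [Finite V] [NeZero a] (f : V → ZMod a) (hab : a < 4 * b) (hba : b ≤ a)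
    (hf : ∀ x, ∀ s ∈ S, b ≤ (f (x + s) - f x).val ∧ (f (x + s) - f x).val ≤ a - b)
    (p : ℕ) (hp : ∀ x : V, p • x = 0)
    (L : List V) (hL : ∀ s ∈ L, s ∈ S) (h0 : L.sum = 0) :
    (p : ℤ) * walk f 0 L = (L.map fun s => walk f 0 (List.replicate p s)).sum := by
  classical
  set G := AddSubgroup.closure S with hG
  have : Fintype G := Fintype.ofFinite G
  have key : ∀ L : List V, (∀ s ∈ L, s ∈ S) → L.sum = 0 →
      (Fintype.card G : ℤ) * walk f 0 L = (L.map fun s => ∑ g : G, step f (g : V) s).sum := by
    intro L hL h0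
    rw [← sum_walk f G L (fun s hs => AddSubgroup.subset_closure (hL s hs))]
    have : ∀ g : G, walk f (g : V) L = walk f 0 L := fun g => by
      have := walk_const f hab hba hf L hL h0 g.2 0
      rwa [zero_add] at this
    simp [this]
  have hrep : ∀ s ∈ S, (Fintype.card G : ℤ) * walk f 0 (List.replicate p s)
      = p * ∑ g : G, step f (g : V) s := by
    intro s hs
    rw [key _ (fun u hu => by rw [List.eq_of_mem_replicate hu]; exact hs)
      (by rw [List.sum_replicate, hp])]
    simp
  have hcard : (Fintype.card G : ℤ) ≠ 0 := by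
    exact_mod_cast Fintype.card_ne_zero
  apply mul_left_cancel₀ hcard
  calc (Fintype.card G : ℤ) * (p * walk f 0 L) = p * ((Fintype.card G : ℤ) * walk f 0 L) := by ring
    _ = p * (L.map fun s => ∑ g : G, step f (g : V) s).sum := by rw [key L hL h0]
    _ = (L.map fun s => p * ∑ g : G, step f (g : V) s).sum := by rw [List.sum_map_mul_left]
    _ = (L.map fun s => (Fintype.card G : ℤ) * walk f 0 (List.replicate p s)).sum := by
        congr 1
        apply List.map_congr_left
        intro s hs
        rw [hrep s (hL s hs)]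
    _ = (Fintype.card G : ℤ) * (L.map fun s => walk f 0 (List.replicate p s)).sum := by
        rw [List.sum_map_mul_left]

lemma walk_replicate_bounds (f : V → ZMod a)
    (hf : ∀ x, ∀ s ∈ S, b ≤ (f (x + s) - f x).val ∧ (f (x + s) - f x).val ≤ a - b)
    (hba : b ≤ a) {s : V} (hs : s ∈ S) (k : ℕ) (y : V) :
    (k * b : ℤ) ≤ walk f y (List.replicate k s) ∧
      walk f y (List.replicate k s) ≤ k * (a - b) := by
  induction k generalizing y with
  | zero => simp [walk]
  | succ k ih =>
    have h1 := hf y s hs
    have h2 := ih (y + s)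
    simp only [List.replicate_succ, walk]
    unfold step
    push_cast
    constructor
    · nlinarith [h2.1, h1.1]
    · have : (((f (y + s) - f y).val : ℕ) : ℤ) ≤ a - b := by omega
      nlinarith [h2.2]

lemma exists_list (T : Finset S) (m : S → ℕ) (v : V → ℤ) :
    ∃ L : List V, (∀ s ∈ L, s ∈ S) ∧ L.sum = ∑ s ∈ T, m s • (s : V) ∧
      (L.map v).sum = ∑ s ∈ T, (m s : ℤ) * v s := by
  classical
  induction T using Finset.induction_on with
  | empty => exact ⟨[], by simp, by simp, by simp⟩
  | insert s T hs ih =>
    obtain ⟨L, h1, h2, h3⟩ := ih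
    refine ⟨List.replicate (m s) (s : V) ++ L, ?_, ?_, ?_⟩
    · intro u hu
      rw [List.mem_append] at hu
      rcases hu with hu | hu
      · rw [List.eq_of_mem_replicate hu]; exact s.2
      · exact h1 u hu
    · rw [List.sum_append, List.sum_replicate, h2, Finset.sum_insert hs]
    · rw [List.map_append, List.sum_append, List.map_replicate, List.sum_replicate, h3,
        Finset.sum_insert hs]
      simp

/-- Let `p` be a prime and let `S` be a subset of `F_p^n`. If the Cayley graph of `F_p^n` with
generating set `S` has a circular `(a, b)`-colouring with `a < 4 b` (the differences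
`f (x + s) - f x` have representatives in `[b, a - b]`; for `(a, b) = (3, 1)` these are the proper
`3`-colourings), then some linear form on `F_p^n` vanishes at no point of `S`. -/
theorem result (p n : ℕ) (hp : p.Prime) (S : Set (Fin n → ZMod p)) (a b : ℕ) (hab : a < 4 * b)
    (f : (Fin n → ZMod p) → ZMod a)
    (hf : ∀ x : Fin n → ZMod p, ∀ s ∈ S,
      b ≤ (f (x + s) - f x).val ∧ (f (x + s) - f x).val ≤ a - b) :
    ∃ l : (Fin n → ZMod p) →ₗ[ZMod p] ZMod p, ∀ s ∈ S, l s ≠ 0 := by
  classical
  have : Fact p.Prime := ⟨hp⟩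
  rcases S.eq_empty_or_nonempty with hS | ⟨s₀, hs₀⟩
  · subst hS
    exact ⟨0, by simp⟩
  have h0 := hf 0 s₀ hs₀
  have hb : 0 < b := by omega
  have hba : b ≤ a := by omega
  have : NeZero a := ⟨by omega⟩
  have hpV : ∀ x : Fin n → ZMod p, p • x = 0 := by
    intro x
    ext i
    simp
  -- the slopes
  have hw : ∀ s ∈ S, ∃ v : ℤ, walk f 0 (List.replicate p s) = a * v ∧ 0 < v ∧ v < p := by
    intro s hs
    have h1 := walk_cast f (List.replicate p s) 0
    rw [List.sum_replicate, hpV, add_zero, sub_self, ZMod.intCast_zmod_eq_zero_iff_dvd] at h1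
    obtain ⟨v, hv⟩ := h1
    have h2 := walk_replicate_bounds f hf hba hs p 0
    have hp0 : (0 : ℤ) < p := by exact_mod_cast hp.pos
    have hb0 : (0 : ℤ) < b := by exact_mod_cast hb
    have ha0 : (0 : ℤ) < a := by omega
    refine ⟨v, hv, ?_, ?_⟩
    · rw [hv] at h2
      have : 0 < (a : ℤ) * v := lt_of_lt_of_le (by positivity) h2.1
      exact (mul_pos_iff_of_pos_left ha0).mp this
    · rw [hv] at h2
      have h3 : (a : ℤ) * v < a * p := by nlinarith [h2.2]
      exact lt_of_mul_lt_mul_left h3 ha0.le
  choose! v hv using hw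
  -- the linear form on the free module
  let φ : (S →₀ ZMod p) →ₗ[ZMod p] (Fin n → ZMod p) :=
    Finsupp.linearCombination (ZMod p) (fun s : S => (s : Fin n → ZMod p))
  let ψ : (S →₀ ZMod p) →ₗ[ZMod p] ZMod p :=
    Finsupp.linearCombination (ZMod p) (fun s : S => ((v s : ℤ) : ZMod p))
  have hker : ∀ x ∈ LinearMap.ker φ, ψ x = 0 := by
    intro x hx
    rw [LinearMap.mem_ker] at hx
    obtain ⟨L, hL1, hL2, hL3⟩ := exists_list x.support (fun s => (x s).val) v
    have hsum : L.sum = 0 := by
      rw [hL2, ← hx]
      simp only [φ, Finsupp.linearCombination_apply, Finsupp.sum]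
      refine Finset.sum_congr rfl fun s _ => ?_
      rw [← Nat.cast_smul_eq_nsmul (ZMod p), ZMod.natCast_val, ZMod.cast_id]
    have h1 := closed_walk f hab hba hf p hpV L hL1 hsum
    have h2 : (L.map fun s => walk f 0 (List.replicate p s)).sum = a * (L.map v).sum := by
      rw [← List.sum_map_mul_left]
      congr 1
      apply List.map_congr_left
      intro s hs
      exact (hv s (hL1 s hs)).1
    have h3 := walk_cast f L 0
    rw [hsum, add_zero, sub_self, ZMod.intCast_zmod_eq_zero_iff_dvd] at h3
    obtain ⟨W, hW⟩ := h3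
    have ha : (a : ℤ) ≠ 0 := by
      have := NeZero.ne a
      exact_mod_cast this
    have h4 : (L.map v).sum = p * W := by
      apply mul_left_cancel₀ ha
      rw [← h2, ← h1, hW]
      ring
    have h5 : ψ x = (((L.map v).sum : ℤ) : ZMod p) := by
      rw [hL3]
      simp only [ψ, Finsupp.linearCombination_apply, Finsupp.sum]
      push_cast
      refine Finset.sum_congr rfl fun s _ => ?_
      rw [smul_eq_mul, ZMod.natCast_val, ZMod.cast_id]
    rw [h5, h4]
    simp
  have hmem : ψ ∈ LinearMap.range φ.dualMap := by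
    rw [LinearMap.range_dualMap_eq_dualAnnihilator_ker, Submodule.mem_dualAnnihilator]
    exact hker
  obtain ⟨l, hl⟩ := hmem
  refine ⟨l, fun s hs h => ?_⟩
  have h1 : l s = ((v s : ℤ) : ZMod p) := by
    have := LinearMap.congr_fun hl (Finsupp.single ⟨s, hs⟩ 1)
    simpa [φ, ψ] using this
  rw [h1, ZMod.intCast_zmod_eq_zero_iff_dvd] at h
  have h2 := (hv s hs).2
  have := Int.le_of_dvd h2.1 h
  omega

end Pool.Agent.Results.MP_e4b685_co.CircularBelowFour
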