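import Mathlib

/-!
Cayley graphs on `(F_p^D)^n` with a bounded chromatic number whose generators have at most three
nonzero blocks (or four, if this part is closed under changing the nonzero blocks): the generating
set is covered by a number of quadratic forms which is linear in the logarithm of the chromatic
number.
-/

set_option autoImplicit false
set_option linter.unusedSectionVars false

namespace Pool.Agent.Results.MP_e4b685_co.FewBlocks

section algebra

variable {R Φ : Type*} [CommRing R] [IsDomain R] [DecidableEq Φ]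

/-- three products with labels -/
lemma three {a b c : R} (ha : a ≠ 0) (hb : b ≠ 0) (hc : c ≠ 0) {x y z : Φ} (hxy : x ≠ y)
    (h : ∀ φ, (if x = φ then a * b else 0) + (if y = φ then b * c else 0) +
      (if z = φ then a * c else 0) = 0) : False := by
  have h1 := h x
  have h2 := h y
  by_cases hz : z = x
  · subst hz
    simp [hxy, hb, hc] at h2
  · simp [hz, hxy.symm, ha, hb] at h1

/-- the equations for the six products of four elements with labels -/
def Eqs (a b c d : R) (x₁ x₂ y₁ y₂ z₁ z₂ : Φ) : Prop :=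
  ∀ φ, (if x₁ = φ then a * b else 0) + (if x₂ = φ then c * d else 0) +
    (if y₁ = φ then a * c else 0) + (if y₂ = φ then b * d else 0) +
    (if z₁ = φ then a * d else 0) + (if z₂ = φ then b * c else 0) = 0

lemma opp {a b c d : R} (h2 : (2 : R) ≠ 0) (ha : a ≠ 0) {x₁ x₂ y₁ y₂ z₁ z₂ : Φ}
    (hx : x₁ ≠ x₂) (hy : y₁ ≠ y₂) (hz : z₁ ≠ z₂)
    (hs : a + b + c + d = 0) (hq : a ^ 2 + b ^ 2 + c ^ 2 + d ^ 2 = 0)
    (h : Eqs a b c d x₁ x₂ y₁ y₂ z₁ z₂) (hab : a + b = 0) : False := by
  have hb : b = -a := by linear_combination hab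
  have hd : d = -c := by linear_combination hs - hab
  subst hb hd
  have hac : a ^ 2 + c ^ 2 = 0 := by
    have : 2 * (a ^ 2 + c ^ 2) = 0 := by linear_combination hq
    exact (mul_eq_zero.1 this).resolve_left h2
  have key : ∀ ε : R, ε ^ 2 = 1 → a * (a - ε * c) ≠ 0 := by
    intro ε hε h0
    have h3 : a = ε * c := by
      have := (mul_eq_zero.1 h0).resolve_left ha
      linear_combination this
    have h4 : 2 * a ^ 2 = 0 := by
      linear_combination hac + (a + ε * c) * h3 + c ^ 2 * hε
    have h5 := (mul_eq_zero.1 h4).resolve_left h2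
    exact ha (pow_eq_zero_iff (two_ne_zero) |>.1 h5)
  have k1 := key 1 (by ring)
  have k2 := key (-1) (by ring)
  have h0 := h x₁
  simp only [if_true, hx.symm, if_false] at h0
  by_cases h3 : y₁ = x₁
  · have h4 : y₂ ≠ x₁ := fun h => hy (h3.trans h.symm)
    by_cases h5 : z₁ = x₁
    · have h6 : z₂ ≠ x₁ := fun h => hz (h5.trans h.symm)
      simp only [h3, h4, h5, h6, if_true, if_false] at h0
      exact mul_ne_zero ha ha (by linear_combination -h0)
    · by_cases h6 : z₂ = x₁
      · simp only [h3, h4, h5, h6, if_true, if_false] at h0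
        exact mul_ne_zero ha ha (by linear_combination -h0)
      · simp only [h3, h4, h5, h6, if_true, if_false] at h0
        exact k1 (by linear_combination -h0)
  · by_cases h4 : y₂ = x₁
    · by_cases h5 : z₁ = x₁
      · have h6 : z₂ ≠ x₁ := fun h => hz (h5.trans h.symm)
        simp only [h3, h4, h5, h6, if_true, if_false] at h0
        exact mul_ne_zero ha ha (by linear_combination -h0)
      · by_cases h6 : z₂ = x₁
        · simp only [h3, h4, h5, h6, if_true, if_false] at h0
          exact mul_ne_zero ha ha (by linear_combination -h0)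
        · simp only [h3, h4, h5, h6, if_true, if_false] at h0
          exact k1 (by linear_combination -h0)
    · by_cases h5 : z₁ = x₁
      · have h6 : z₂ ≠ x₁ := fun h => hz (h5.trans h.symm)
        simp only [h3, h4, h5, h6, if_true, if_false] at h0
        exact k2 (by linear_combination -h0)
      · by_cases h6 : z₂ = x₁
        · simp only [h3, h4, h5, h6, if_true, if_false] at h0
          exact k2 (by linear_combination -h0)
        · simp only [h3, h4, h5, h6, if_false] at h0
          exact mul_ne_zero ha ha (by linear_combination -h0)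

lemma four {a b c d : R} (h2 : (2 : R) ≠ 0) (ha : a ≠ 0) (hb : b ≠ 0) (hc : c ≠ 0) (hd : d ≠ 0)
    {x₁ x₂ y₁ y₂ z₁ z₂ : Φ}
    (hx : x₁ ≠ x₂) (hy : y₁ ≠ y₂) (hz : z₁ ≠ z₂)
    (hs : a + b + c + d = 0) (hq : a ^ 2 + b ^ 2 + c ^ 2 + d ^ 2 = 0)
    (h : Eqs a b c d x₁ x₂ y₁ y₂ z₁ z₂) : False := by
  have hab : a + b ≠ 0 := fun h0 => opp h2 ha hx hy hz hs hq h h0
  have hac : a + c ≠ 0 := by
    refine fun h0 => opp (a := a) (b := c) (c := b) (d := d) h2 ha hy hx hz
      (by linear_combination hs) (by linear_combination hq) (fun φ => ?_) h0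
    have := h φ
    rw [mul_comm c b]
    linear_combination this
  have had : a + d ≠ 0 := by
    refine fun h0 => opp (a := a) (b := d) (c := c) (d := b) h2 ha hz hy hx
      (by linear_combination hs) (by linear_combination hq) (fun φ => ?_) h0
    have := h φ
    rw [mul_comm c b, mul_comm d b, mul_comm d c]
    linear_combination this
  have hcd : c + d ≠ 0 := fun h0 => hab (by linear_combination hs - h0)
  have hbd : b + d ≠ 0 := fun h0 => hac (by linear_combination hs - h0)
  have hbc : b + c ≠ 0 := fun h0 => had (by linear_combination hs - h0)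
  have h0 := h x₁
  simp only [if_true, hx.symm, if_false] at h0
  by_cases h3 : y₁ = x₁
  · have h4 : y₂ ≠ x₁ := fun h => hy (h3.trans h.symm)
    by_cases h5 : z₁ = x₁
    · have h6 : z₂ ≠ x₁ := fun h => hz (h5.trans h.symm)
      simp only [h3, h4, h5, h6, if_true, if_false] at h0
      exact mul_ne_zero ha ha (by linear_combination a * hs - h0)
    · by_cases h6 : z₂ = x₁
      · have h7 : y₁ ≠ x₂ := fun h => hx (h3.symm.trans h)
        have h8 : z₂ ≠ x₂ := fun h => hx (h6.symm.trans h)
        have h9 := h x₂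
        simp only [if_true, hx, h7, h8, if_false] at h9
        by_cases h10 : y₂ = x₂
        · by_cases h11 : z₁ = x₂
          · simp only [h10, h11, if_true] at h9
            exact mul_ne_zero hd hd (by linear_combination d * hs - h9)
          · simp only [h10, h11, if_true, if_false] at h9
            exact mul_ne_zero hd hbc (by linear_combination h9)
        · by_cases h11 : z₁ = x₂
          · simp only [h10, h11, if_true, if_false] at h9
            exact mul_ne_zero hd hac (by linear_combination h9)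
          · simp only [h10, h11, if_false] at h9
            exact mul_ne_zero hc hd (by linear_combination h9)
      · simp only [h3, h4, h5, h6, if_true, if_false] at h0
        exact mul_ne_zero ha hbc (by linear_combination h0)
  · by_cases h4 : y₂ = x₁
    · by_cases h5 : z₁ = x₁
      · have h7 : y₂ ≠ x₂ := fun h => hx (h4.symm.trans h)
        have h8 : z₁ ≠ x₂ := fun h => hx (h5.symm.trans h)
        have h9 := h x₂
        simp only [if_true, hx, h7, h8, if_false] at h9
        by_cases h10 : y₁ = x₂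
        · by_cases h11 : z₂ = x₂
          · simp only [h10, h11, if_true] at h9
            exact mul_ne_zero hc hc (by linear_combination c * hs - h9)
          · simp only [h10, h11, if_true, if_false] at h9
            exact mul_ne_zero hc had (by linear_combination h9)
        · by_cases h11 : z₂ = x₂
          · simp only [h10, h11, if_true, if_false] at h9
            exact mul_ne_zero hc hbd (by linear_combination h9)
          · simp only [h10, h11, if_false] at h9
            exact mul_ne_zero hc hd (by linear_combination h9)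
      · by_cases h6 : z₂ = x₁
        · simp only [h3, h4, h5, h6, if_true, if_false] at h0
          exact mul_ne_zero hb hb (by linear_combination b * hs - h0)
        · simp only [h3, h4, h5, h6, if_true, if_false] at h0
          exact mul_ne_zero hb had (by linear_combination h0)
    · by_cases h5 : z₁ = x₁
      · have h6 : z₂ ≠ x₁ := fun h => hz (h5.trans h.symm)
        simp only [h3, h4, h5, h6, if_true, if_false] at h0
        exact mul_ne_zero ha hbd (by linear_combination h0)
      · by_cases h6 : z₂ = x₁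
        · simp only [h3, h4, h5, h6, if_true, if_false] at h0
          exact mul_ne_zero hb hac (by linear_combination h0)
        · simp only [h3, h4, h5, h6, if_false] at h0
          exact mul_ne_zero ha hb (by linear_combination h0)

end algebra

open Finset

variable {p : ℕ} [hp : Fact p.Prime] {D n m C : ℕ} {E : Type} [Field E] [Algebra (ZMod p) E]

/-- a vector of `F_p^D` as a linear polynomial over `E` -/
noncomputable def lin (p D : ℕ) [Fact p.Prime] (E : Type) [Field E] [Algebra (ZMod p) E] :
    (Fin D → ZMod p) →ₗ[ZMod p] MvPolynomial (Fin D) E where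
  toFun v := ∑ α, v α • MvPolynomial.X α
  map_add' u v := by simp only [Pi.add_apply, add_smul, Finset.sum_add_distrib]
  map_smul' c v := by
    simp only [Pi.smul_apply, smul_eq_mul, mul_smul, Finset.smul_sum, RingHom.id_apply]

lemma lin_ne {v : Fin D → ZMod p} (hv : v ≠ 0) : lin p D E v ≠ 0 := by
  intro h
  apply hv
  have h0 : ∑ α, (algebraMap (ZMod p) E (v α)) • (MvPolynomial.X α : MvPolynomial (Fin D) E) = 0 := by
    rw [← h]
    show _ = ∑ α, v α • MvPolynomial.X α
    refine Finset.sum_congr rfl fun α _ => ?_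
    rw [algebraMap_smul]
  have h1 := Fintype.linearIndependent_iff.1
    (MvPolynomial.linearIndependent_X (Fin D) E) _ h0
  funext i
  exact (algebraMap (ZMod p) E).injective (by rw [h1 i, Pi.zero_apply, map_zero])

lemma lin_mul (u v : Fin D → ZMod p) : lin p D E u * lin p D E v =
    ∑ α, ∑ β, (u α * v β) • (MvPolynomial.X α * MvPolynomial.X β : MvPolynomial (Fin D) E) := by
  show (∑ α, u α • MvPolynomial.X α) * (∑ α, v α • MvPolynomial.X α) = _
  rw [Finset.sum_mul_sum]
  refine Finset.sum_congr rfl fun α _ => Finset.sum_congr rfl fun β _ => ?_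
  rw [smul_mul_smul_comm]

lemma two_ne (hp2 : p ≠ 2) : (2 : MvPolynomial (Fin D) E) ≠ 0 := by
  have h : (2 : ZMod p) ≠ 0 := by
    intro h
    have h1 : ((2 : ℕ) : ZMod p) = 0 := by exact_mod_cast h
    rw [ZMod.natCast_eq_zero_iff] at h1
    exact hp2 ((Nat.prime_dvd_prime_iff_eq hp.out Nat.prime_two).1 h1)
  intro h0
  apply h
  have h1 : (MvPolynomial.C (2 : E) : MvPolynomial (Fin D) E) = 0 := by
    rw [map_ofNat]
    exact h0
  have h2 := (MvPolynomial.C_eq_zero).1 h1
  exact (algebraMap (ZMod p) E).injective (by rw [map_ofNat, h2, map_zero])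

/-- vanishing of all symmetric forms gives vanishing in the polynomial ring -/
lemma sum_lin {ι : Type*} (hp2 : p ≠ 2) (B : Module.Basis (Fin m) (ZMod p) E) (I : Finset ι)
    (c : ι → E) (u v : ι → Fin D → ZMod p)
    (h : ∀ l α β, ∑ i ∈ I, B.repr (c i) l * (u i α * v i β + u i β * v i α) = 0) :
    ∑ i ∈ I, c i • (lin p D E (u i) * lin p D E (v i)) = 0 := by
  have h0 : ∀ α β, ∑ i ∈ I, (u i α * v i β + u i β * v i α) • c i = 0 := by
    intro α β
    refine B.ext_elem fun l => ?_
    rw [map_sum, Finset.sum_apply', map_zero, Finsupp.zero_apply, ← h l α β]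
    refine Finset.sum_congr rfl fun i _ => ?_
    rw [map_smul, Finsupp.smul_apply, smul_eq_mul, mul_comm]
  have h1 : (2 : MvPolynomial (Fin D) E) *
      ∑ i ∈ I, c i • (lin p D E (u i) * lin p D E (v i)) = 0 := by
    have e0 : ∀ i, c i • (lin p D E (u i) * lin p D E (v i)) = ∑ α, ∑ β,
        ((u i α * v i β) • c i) •
          (MvPolynomial.X α * MvPolynomial.X β : MvPolynomial (Fin D) E) := by
      intro i
      rw [lin_mul, Finset.smul_sum]
      refine Finset.sum_congr rfl fun α _ => ?_
      rw [Finset.smul_sum]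
      refine Finset.sum_congr rfl fun β _ => ?_
      rw [smul_comm, smul_assoc]
    have e1 : ∑ i ∈ I, c i • (lin p D E (u i) * lin p D E (v i)) = ∑ α, ∑ β,
        (∑ i ∈ I, (u i α * v i β) • c i) •
          (MvPolynomial.X α * MvPolynomial.X β : MvPolynomial (Fin D) E) := by
      simp only [e0, Finset.sum_smul]
      rw [Finset.sum_comm]
      refine Finset.sum_congr rfl fun α _ => ?_
      rw [Finset.sum_comm]
    have e2 : ∑ i ∈ I, c i • (lin p D E (u i) * lin p D E (v i)) = ∑ α, ∑ β,
        (∑ i ∈ I, (u i β * v i α) • c i) •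
          (MvPolynomial.X α * MvPolynomial.X β : MvPolynomial (Fin D) E) := by
      rw [e1, Finset.sum_comm]
      refine Finset.sum_congr rfl fun α _ => Finset.sum_congr rfl fun β _ => ?_
      rw [mul_comm (MvPolynomial.X β)]
    rw [two_mul]
    conv_lhs =>
      arg 1
      rw [e1]
    rw [e2, ← Finset.sum_add_distrib]
    refine Finset.sum_eq_zero fun α _ => ?_
    rw [← Finset.sum_add_distrib]
    refine Finset.sum_eq_zero fun β _ => ?_
    rw [← add_smul, ← Finset.sum_add_distrib]
    simp only [← add_smul]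
    rw [h0 α β, zero_smul]
  exact (mul_eq_zero.1 h1).resolve_left (two_ne hp2)

lemma sum_embed {M : Type*} [AddCommMonoid M] {w : ℕ} (e : Fin w ↪o Fin n) (g : Fin n → M)
    (hg : ∀ u, u ∉ Set.range e → g u = 0) : ∑ u, g u = ∑ r, g (e r) :=
  (Fintype.sum_of_injective e e.injective _ g hg fun _ => rfl).symm

lemma eq_sum_single {w : ℕ} (e : Fin w ↪o Fin n) (s : Fin n → Fin D → ZMod p)
    (hs : ∀ u, u ∉ Set.range e → s u = 0) : s = ∑ r, Pi.single (e r) (s (e r)) := by
  conv_lhs => rw [← Finset.univ_sum_single s]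
  exact sum_embed e _ fun u hu => by rw [hs u hu, Pi.single_zero]

/-- all forms with a given label function vanish: then the labelled sums of products vanish -/
lemma labsum (hp2 : p ≠ 2) (B : Module.Basis (Fin m) (ZMod p) E) (g : Fin n → Fin n → E)
    {s : Fin n → Fin D → ZMod p} {w : ℕ} (e : Fin w ↪o Fin n)
    (hs : ∀ u, u ∉ Set.range e → s u = 0) (hw : w ≤ 4)
    (hl : ∀ (j : Fin 6) l α β, ∑ u, ∑ v, (if u < v then
      B.repr (g u v ^ (j : ℕ)) l * (s u α * s v β + s u β * s v α) else 0) = 0) (φ : E)
    [DecidableEq E] :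
    ∑ r, ∑ t, (if r < t ∧ g (e r) (e t) = φ then
      lin p D E (s (e r)) * lin p D E (s (e t)) else 0) = 0 := by
  -- powers
  have h1 : ∀ j : Fin 6, ∑ r, ∑ t, (if r < t then g (e r) (e t) ^ (j : ℕ) •
      (lin p D E (s (e r)) * lin p D E (s (e t))) else 0) = 0 := by
    intro j
    have h2 := sum_lin hp2 B ((univ : Finset (Fin n × Fin n)).filter (fun q => q.1 < q.2))
      (fun q => g q.1 q.2 ^ (j : ℕ)) (fun q => s q.1) (fun q => s q.2) (by
        intro l α β
        have h3 := hl j l α β
        rw [← Finset.sum_product', Finset.univ_product_univ, ← Finset.sum_filter] at h3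
        exact h3)
    rw [Finset.sum_filter, ← Finset.univ_product_univ, Finset.sum_product] at h2
    rw [sum_embed e _ fun u hu => by simp [hs u hu]] at h2
    refine Eq.trans (Finset.sum_congr rfl fun r _ => ?_) h2
    rw [sum_embed e _ fun u hu => by simp [hs u hu]]
    refine Finset.sum_congr rfl fun t _ => ?_
    simp only [e.lt_iff_lt]
  -- polynomials of degree at most five
  have h2 : ∀ P : Polynomial E, P.natDegree < 6 → ∑ r, ∑ t, (if r < t then
      P.eval (g (e r) (e t)) • (lin p D E (s (e r)) * lin p D E (s (e t))) else 0) = 0 := by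
    intro P hP
    have h3 : ∑ j : Fin 6, P.coeff j • (∑ r, ∑ t, (if r < t then g (e r) (e t) ^ (j : ℕ) •
      (lin p D E (s (e r)) * lin p D E (s (e t))) else 0) : MvPolynomial (Fin D) E) = 0 :=
      Finset.sum_eq_zero fun j _ => by rw [h1 j, smul_zero]
    refine Eq.trans ?_ h3
    simp only [Finset.smul_sum]
    conv_rhs => rw [Finset.sum_comm]
    refine Finset.sum_congr rfl fun r _ => ?_
    conv_rhs => rw [Finset.sum_comm]
    refine Finset.sum_congr rfl fun t _ => ?_
    split_ifs with h
    · rw [Polynomial.eval_eq_sum_range' hP, Finset.sum_range, Finset.sum_smul]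
      refine Finset.sum_congr rfl fun j _ => ?_
      rw [smul_smul]
    · simp
  -- the polynomial vanishing at the other labels
  have hTc : (univ.filter fun q : Fin w × Fin w => q.1 < q.2).card ≤ 6 := by
    clear * - hw
    interval_cases w <;> decide
  set T : Finset (Fin w × Fin w) := univ.filter fun q => q.1 < q.2 with hT
  by_cases hφ : ∃ q ∈ T, g (e q.1) (e q.2) = φ
  swap
  · refine Finset.sum_eq_zero fun r _ => Finset.sum_eq_zero fun t _ => ?_
    rw [if_neg]
    rintro ⟨hrt, h⟩
    exact hφ ⟨(r, t), by rw [hT]; simpa using hrt, h⟩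
  obtain ⟨q₀, hq₀, hq₀φ⟩ := hφ
  set L : Finset E := (T.image fun q => g (e q.1) (e q.2)).erase φ with hL
  have hLc : L.card < 6 := by
    have h3 : φ ∈ T.image fun q => g (e q.1) (e q.2) := Finset.mem_image.2 ⟨q₀, hq₀, hq₀φ⟩
    have h4 := Finset.card_erase_lt_of_mem h3
    have h5 := Finset.card_image_le (s := T) (f := fun q => g (e q.1) (e q.2))
    rw [hL]
    omega
  set P : Polynomial E := ∏ x ∈ L, (Polynomial.X - Polynomial.C x) with hP
  have hPd : P.natDegree < 6 := by
    rw [hP, Polynomial.natDegree_finsetProd_X_sub_C_eq_card]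
    exact hLc
  have hPe : ∀ x, P.eval x = 0 ↔ x ∈ L := by
    intro x
    rw [hP, Polynomial.eval_prod, Finset.prod_eq_zero_iff]
    constructor
    · rintro ⟨y, hy, h⟩
      rw [Polynomial.eval_sub, Polynomial.eval_X, Polynomial.eval_C, sub_eq_zero] at h
      rw [h]
      exact hy
    · intro h
      exact ⟨x, h, by simp⟩
  have h3 := h2 P hPd
  have hPφ : P.eval φ ≠ 0 := by
    intro h
    exact absurd ((hPe φ).1 h) (by simp [hL])
  have h4 : P.eval φ • ∑ r, ∑ t, (if r < t ∧ g (e r) (e t) = φ then
      lin p D E (s (e r)) * lin p D E (s (e t)) else 0) = 0 := by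
    refine Eq.trans ?_ h3
    rw [Finset.smul_sum]
    refine Finset.sum_congr rfl fun r _ => ?_
    rw [Finset.smul_sum]
    refine Finset.sum_congr rfl fun t _ => ?_
    by_cases hrt : r < t
    · by_cases h : g (e r) (e t) = φ
      · rw [if_pos ⟨hrt, h⟩, if_pos hrt, h]
      · rw [if_neg (fun h' => h h'.2), if_pos hrt, smul_zero, (hPe _).2, zero_smul]
        rw [hL, Finset.mem_erase]
        exact ⟨h, Finset.mem_image.2 ⟨(r, t), by rw [hT]; simpa using hrt, rfl⟩⟩
    · rw [if_neg (fun h' => hrt h'.1), if_neg hrt, smul_zero]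
  exact (smul_eq_zero.1 h4).resolve_left hPφ

/-- All quadratic forms of the list vanish only at vectors which are not in `S`. -/
theorem main (hp2 : p ≠ 2) (B : Module.Basis (Fin m) (ZMod p) E)
    {S : Set (Fin n → Fin D → ZMod p)}
    (f : (Fin n → Fin D → ZMod p) → Fin C) (hf : ∀ x, ∀ s ∈ S, f x ≠ f (x + s))
    (G : (Fin D → ZMod p) → (Fin D → ZMod p) → Fin n → Fin n → E)
    (hG : ∀ a b u v u' v', G a b u v = G a b u' v' →
      f (Pi.single u a + Pi.single v b) = f (Pi.single u' a + Pi.single v' b))
    {s : Fin n → Fin D → ZMod p} (hsS : s ∈ S)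
    (h4 : (univ.filter fun i => s i ≠ 0).card ≤ 4)
    (ht : (univ.filter fun i => s i ≠ 0).card = 4 → ∀ t : Fin n → Fin D → ZMod p,
      (∀ i, t i = 0 ↔ s i = 0) → t ∈ S)
    (h0 : ∑ i, s i = 0) (hq : ∀ α β, ∑ i, s i α * s i β = 0)
    (hl : ∀ (a b : Fin D → ZMod p) (j : Fin 6) l α β, ∑ u, ∑ v, (if u < v then
      B.repr (G a b u v ^ (j : ℕ)) l *
        (s u α * s v β + s u β * s v α) else 0) = 0) : False := by
  classical
  obtain ⟨w, hw⟩ : ∃ w, (univ.filter fun i => s i ≠ 0).card = w := ⟨_, rfl⟩
  set e : Fin w ↪o Fin n := (univ.filter fun i => s i ≠ 0).orderEmbOfFin hw with he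
  have hran : ∀ u, u ∈ Set.range e ↔ s u ≠ 0 := by
    intro u
    rw [he, Finset.range_orderEmbOfFin]
    simp
  have hout : ∀ u, u ∉ Set.range e → s u = 0 := by
    intro u hu
    by_contra hne
    exact hu ((hran u).2 hne)
  have hA : ∀ r, lin p D E (s (e r)) ≠ 0 := fun r => lin_ne ((hran _).1 ⟨r, rfl⟩)
  have hsum' : ∑ r, s (e r) = 0 := by rw [← sum_embed e s hout, h0]
  have hsum : ∑ r, lin p D E (s (e r)) = 0 := by rw [← map_sum, hsum', map_zero]
  have hsq : ∑ r, lin p D E (s (e r)) ^ 2 = 0 := by
    have h1 : ∑ i, (1 : E) • (lin p D E (s i) * lin p D E (s i)) = 0 := by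
      refine sum_lin hp2 B univ (fun _ => (1 : E)) s s fun l α β => ?_
      rw [← Finset.mul_sum, Finset.sum_add_distrib, hq, hq, add_zero, mul_zero]
    simp only [one_smul] at h1
    rw [sum_embed e _ fun u hu => by rw [hout u hu, map_zero, mul_zero]] at h1
    simpa only [sq] using h1
  have hw4 : w ≤ 4 := hw ▸ h4
  have hlab : ∀ (a b : Fin D → ZMod p) (φ : E),
      ∑ r, ∑ t, (if r < t ∧ G a b (e r) (e t) = φ then
        lin p D E (s (e r)) * lin p D E (s (e t)) else 0) = 0 := fun a b φ =>
    labsum hp2 B (G a b) e hout hw4 (hl a b) φ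
  have hse := eq_sum_single e s hout
  interval_cases w
  · -- weight 0
    refine hf 0 s hsS ?_
    rw [hse]
    simp
  · -- weight 1
    rw [Fin.sum_univ_one] at hsum
    exact hA 0 hsum
  · -- weight 2
    rw [Fin.sum_univ_two] at hsum hsq
    have h1 : (2 : MvPolynomial (Fin D) E) * lin p D E (s (e 0)) ^ 2 = 0 := by
      linear_combination hsq + (lin p D E (s (e 0)) - lin p D E (s (e 1))) * hsum
    have h2 := (mul_eq_zero.1 h1).resolve_left (two_ne hp2)
    exact hA 0 (pow_eq_zero_iff two_ne_zero |>.1 h2)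
  · -- weight 3
    rw [Fin.sum_univ_three] at hsum' hse
    have hne : G (-s (e 0)) (s (e 2)) (e 0) (e 1) ≠ G (-s (e 0)) (s (e 2)) (e 1) (e 2) := by
      intro h
      refine hf _ s hsS ((hG _ _ _ _ _ _ h).trans ?_)
      congr 1
      have h2 : -s (e 0) = s (e 1) + s (e 2) := by
        rw [neg_eq_iff_add_eq_zero, ← add_assoc]
        exact hsum'
      have h3 : (Pi.single (e 1) (-s (e 0)) : Fin n → Fin D → ZMod p) =
          Pi.single (e 1) (s (e 1)) + Pi.single (e 1) (s (e 2)) := by
        rw [h2, Pi.single_add]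
      rw [h3, Pi.single_neg]
      have h4 := hse
      revert h4
      generalize (Pi.single (e 0) (s (e 0)) : Fin n → Fin D → ZMod p) = X₀
      generalize (Pi.single (e 1) (s (e 1)) : Fin n → Fin D → ZMod p) = X₁
      generalize (Pi.single (e 2) (s (e 2)) : Fin n → Fin D → ZMod p) = X₂
      generalize (Pi.single (e 1) (s (e 2)) : Fin n → Fin D → ZMod p) = X₃
      intro h4
      rw [h4]
      abel
    refine three (hA 0) (hA 1) (hA 2) hne
      (z := G (-s (e 0)) (s (e 2)) (e 0) (e 2)) fun φ => ?_
    have h1 := hlab (-s (e 0)) (s (e 2)) φ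
    simp only [Fin.sum_univ_three] at h1
    norm_num [Fin.lt_def] at h1
    linear_combination h1
  · -- weight 4
    have hS : ∀ ε : Fin 4 → ZMod p, (∀ r, ε r ≠ 0) → ∑ r, Pi.single (e r) (ε r • s (e 0)) ∈ S := by
      intro ε hε
      refine ht hw _ fun u => ?_
      rw [Finset.sum_apply]
      by_cases hu : u ∈ Set.range e
      · obtain ⟨t, rfl⟩ := hu
        have h1 : s (e t) ≠ 0 := (hran _).1 ⟨t, rfl⟩
        have h2 : s (e 0) ≠ 0 := (hran _).1 ⟨0, rfl⟩
        simp [Pi.single_apply, h1, h2, hε]
      · have h1 := hout u hu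
        have h2 : ∀ r, u ≠ e r := fun r h => hu ⟨r, h.symm⟩
        simp [h1, h2]
    have hx : G (s (e 0)) (s (e 0)) (e 0) (e 1) ≠ G (s (e 0)) (s (e 0)) (e 2) (e 3) := by
      intro h
      refine hf _ _ (hS ![-1, -1, 1, 1] (by simp [Fin.forall_fin_succ])) ((hG _ _ _ _ _ _ h).trans ?_)
      congr 1
      simp [Fin.sum_univ_four, Pi.single_neg]
      abel
    have hy : G (s (e 0)) (s (e 0)) (e 0) (e 2) ≠ G (s (e 0)) (s (e 0)) (e 1) (e 3) := by
      intro h
      refine hf _ _ (hS ![-1, 1, -1, 1] (by simp [Fin.forall_fin_succ])) ((hG _ _ _ _ _ _ h).trans ?_)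
      congr 1
      simp [Fin.sum_univ_four, Pi.single_neg]
      abel
    have hz : G (s (e 0)) (s (e 0)) (e 0) (e 3) ≠ G (s (e 0)) (s (e 0)) (e 1) (e 2) := by
      intro h
      refine hf _ _ (hS ![-1, 1, 1, -1] (by simp [Fin.forall_fin_succ])) ((hG _ _ _ _ _ _ h).trans ?_)
      congr 1
      simp [Fin.sum_univ_four, Pi.single_neg]
      abel
    rw [Fin.sum_univ_four] at hsum hsq
    refine four (two_ne hp2) (hA 0) (hA 1) (hA 2) (hA 3) hx hy hz hsum hsq fun φ => ?_
    have h1 := hlab (s (e 0)) (s (e 0)) φ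
    simp only [Fin.sum_univ_four] at h1
    norm_num [Fin.lt_def] at h1
    linear_combination h1

/-- one coordinate of one block -/
def co (u : Fin n) (α : Fin D) : (Fin n → Fin D → ZMod p) →ₗ[ZMod p] ZMod p where
  toFun s := s u α
  map_add' _ _ := rfl
  map_smul' _ _ := rfl

lemma co_apply (u : Fin n) (α : Fin D) (s : Fin n → Fin D → ZMod p) : co u α s = s u α := rfl

/-- the quadratic forms -/
noncomputable def form (B : Module.Basis (Fin m) (ZMod p) E)
    (f : (Fin n → Fin D → ZMod p) → Fin C) (g : Fin C → E) :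
    (Fin D × Fin D) × Option (Option ((Fin D → ZMod p) × (Fin D → ZMod p) × Fin 6 × Fin m)) →
      QuadraticForm (ZMod p) (Fin n → Fin D → ZMod p)
  | (q, none) => QuadraticMap.linMulLin (∑ u, co u q.1) (∑ u, co u q.2)
  | (q, some none) => ∑ u, QuadraticMap.linMulLin (co u q.1) (co u q.2)
  | (q, some (some (a, b, j, l))) => ∑ u, ∑ v, if u < v then
      B.repr (g (f (Pi.single u a + Pi.single v b)) ^ (j : ℕ)) l •
      (QuadraticMap.linMulLin (co u q.1) (co v q.2) +
        QuadraticMap.linMulLin (co u q.2) (co v q.1)) else 0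

theorem covered (hp2 : p ≠ 2) (B : Module.Basis (Fin m) (ZMod p) E)
    {S : Set (Fin n → Fin D → ZMod p)}
    (hS : ∀ s ∈ S, ∑ i, s i = 0 → (∀ α β, ∑ i, s i α * s i β = 0) →
      (univ.filter fun i => s i ≠ 0).card ≤ 4 ∧
      ((univ.filter fun i => s i ≠ 0).card = 4 →
        ∀ t : Fin n → Fin D → ZMod p, (∀ i, t i = 0 ↔ s i = 0) → t ∈ S))
    (f : (Fin n → Fin D → ZMod p) → Fin C) (hf : ∀ x, ∀ s ∈ S, f x ≠ f (x + s))
    (g : Fin C → E) (hg : Function.Injective g)
    (s : Fin n → Fin D → ZMod p) (hs : s ∈ S) : ∃ j, form B f g j s ≠ 0 := by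
  by_contra hcon
  push Not at hcon
  have h0 : ∑ i, s i = 0 := by
    funext α
    have h1 := hcon ((α, α), none)
    simp only [form, QuadraticMap.linMulLin_apply, LinearMap.sum_apply, co_apply,
      mul_self_eq_zero] at h1
    rw [Finset.sum_apply, h1]
    rfl
  have hq : ∀ α β, ∑ i, s i α * s i β = 0 := by
    intro α β
    have h1 := hcon ((α, β), some none)
    simp only [form, _root_.sum_apply, QuadraticMap.linMulLin_apply, co_apply] at h1
    exact h1
  obtain ⟨h3, h4⟩ := hS s hs h0 hq
  refine main hp2 B f hf (fun a b u v => g (f (Pi.single u a + Pi.single v b)))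
    (fun a b u v u' v' h => hg h) hs h3 h4 h0 hq fun a b j l α β => ?_
  have h1 := hcon ((α, β), some (some (a, b, j, l)))
  simp only [form, _root_.sum_apply] at h1
  refine Eq.trans (Finset.sum_congr rfl fun i _ => Finset.sum_congr rfl fun j _ => ?_) h1
  split_ifs with h2
  · rfl
  · rfl

/-- Let `p` be an odd prime, `S` a set of vectors with `n` blocks in `F_p^D` such that every `s`
in `S` with `∑ s_i = 0` and `∑ s_i s_i^T = 0` has at most four nonzero blocks, and such that for
every such `s` with exactly four nonzero blocks `S` contains all vectors `t` with `t_i ≠ 0` exactly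
where `s_i ≠ 0`.
If the Cayley graph with generating set `S` has a proper colouring with `C ≤ p^m` colours, then `S`
is covered by the nonzero sets of `D^2 (6 m p^(2D) + 2)` quadratic forms. -/
theorem result (p D m C n : ℕ) (hp : p.Prime) (hp2 : p ≠ 2) (hC : C ≤ p ^ m)
    (S : Set (Fin n → Fin D → ZMod p))
    (hS : ∀ s ∈ S, ∑ i, s i = 0 → (∀ α β, ∑ i, s i α * s i β = 0) →
      (univ.filter fun i => s i ≠ 0).card ≤ 4 ∧
      ((univ.filter fun i => s i ≠ 0).card = 4 →
        ∀ t : Fin n → Fin D → ZMod p, (∀ i, t i = 0 ↔ s i = 0) → t ∈ S))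
    (f : (Fin n → Fin D → ZMod p) → Fin C) (hf : ∀ x, ∀ s ∈ S, f x ≠ f (x + s)) :
    ∃ P : Fin (D ^ 2 * (6 * m * p ^ (2 * D) + 2)) →
        QuadraticForm (ZMod p) (Fin n → Fin D → ZMod p),
      ∀ s ∈ S, ∃ j, P j s ≠ 0 := by
  have : Fact p.Prime := ⟨hp⟩
  rcases eq_or_ne m 0 with rfl | hm
  · refine ⟨fun _ => 0, fun s hs => absurd (Fin.ext ?_) (hf 0 s hs)⟩
    have h1 := (f 0).isLt
    have h2 := (f (0 + s)).isLt
    rw [pow_zero] at hC
    omega
  set E := GaloisField p m
  have : Fintype E := Fintype.ofFinite _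
  have hcard : Fintype.card E = p ^ m := by
    rw [← Nat.card_eq_fintype_card]
    exact GaloisField.card p m hm
  have B : Module.Basis (Fin m) (ZMod p) E :=
    Module.finBasisOfFinrankEq (ZMod p) E (GaloisField.finrank p hm)
  have e : Fin (p ^ m) ≃ E := (Fintype.equivFinOfCardEq hcard).symm
  have key : Fintype.card ((Fin D × Fin D) ×
      Option (Option ((Fin D → ZMod p) × (Fin D → ZMod p) × Fin 6 × Fin m))) =
      D ^ 2 * (6 * m * p ^ (2 * D) + 2) := by
    simp only [Fintype.card_prod, Fintype.card_fin, Fintype.card_option, Fintype.card_pi,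
      Finset.prod_const, Finset.card_univ, ZMod.card]
    ring
  have e' := (Fintype.equivFinOfCardEq key).symm
  refine ⟨fun j => form B f (fun c => e (Fin.castLE hC c)) (e' j), fun s hs => ?_⟩
  obtain ⟨j, hj⟩ := covered hp2 B hS f hf (fun c => e (Fin.castLE hC c))
    (fun c c' h => Fin.castLE_injective hC (e.injective h)) s hs
  refine ⟨e'.symm j, ?_⟩
  show form B f (fun c => e (Fin.castLE hC c)) (e' (e'.symm j)) s ≠ 0
  rw [Equiv.apply_symm_apply]
  exact hj

end Pool.Agent.Results.MP_e4b685_co.FewBlocks
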