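import Pool.Agent.ZPT.MainB

set_option autoImplicit false

/-!
Linear covers of the generating sets of Cayley graphs on `(F_p ^ d) ^ n` of bounded chromatic
number which are invariant under the permutations of the `n` coordinates preserving `r` blocks.
-/

namespace Pool.Agent.Results.MP_e4b685_co.SymmetricSets

open Finset

/-- For all primes `p` and all `C`, `d` there is `K` such that for every set `S` of vectors with
`n` coordinates in `F_p ^ d` which is invariant under the permutations of the coordinates
preserving each of the `r` blocks, if the Cayley graph generated by `S` has a proper colouring with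
`C` colours then every element of `S` has nonzero sum of coordinates in some block or a nonzero
coordinate among the first `K` coordinates of some block; in particular `r * (K + 1) * d` linear
forms suffice. -/
theorem result (p : ℕ) (hp : p.Prime) (C d : ℕ) : ∃ K : ℕ, ∀ (n r : ℕ) (blk : Fin n → Fin r)
    (S : Set (Fin n → Fin d → ZMod p)),
    (∀ σ : Equiv.Perm (Fin n), (∀ i, blk (σ i) = blk i) → ∀ s ∈ S, s ∘ σ ∈ S) →
    (∃ f : (Fin n → Fin d → ZMod p) → Fin C, ∀ x, ∀ s ∈ S, f x ≠ f (x + s)) →
    (∀ s ∈ S, (∃ β, ∑ i with blk i = β, s i ≠ 0) ∨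
      ∃ i : Fin n, ((Finset.univ : Finset (Fin n)).filter fun i' => i' < i ∧ blk i' = blk i).card < K
        ∧ s i ≠ 0) ∧
    ∃ l : Fin (r * (K + 1) * d) → Module.Dual (ZMod p) (Fin n → Fin d → ZMod p),
      ∀ s ∈ S, ∃ j, l j s ≠ 0 := by
  classical
  have hpf : Fact p.Prime := ⟨hp⟩
  have hNZ : NeZero p := ⟨hp.ne_zero⟩
  obtain ⟨K, hK⟩ := Pool.Agent.ZPT.Gen.symmetric_blocks p C (Fin d → ZMod p)
  refine ⟨K, fun n r blk S hperm hcol => ?_⟩
  have h1 := hK n r blk S hperm hcol
  refine ⟨h1, ?_⟩
  -- the forms
  set ev : Fin n → Fin d → Module.Dual (ZMod p) (Fin n → Fin d → ZMod p) := fun i e =>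
    { toFun := fun x => x i e
      map_add' := fun _ _ => rfl
      map_smul' := fun _ _ => rfl } with hev
  have hevx : ∀ i e x, ev i e x = x i e := fun _ _ _ => rfl
  set F : (Fin r × Fin (K + 1)) × Fin d → Module.Dual (ZMod p) (Fin n → Fin d → ZMod p) :=
    fun q =>
      if (q.1.2 : ℕ) = K then
        ∑ i with blk i = q.1.1, ev i q.2
      else if h : ∃ i, blk i = q.1.1 ∧
          ((Finset.univ : Finset (Fin n)).filter fun i' => i' < i ∧ blk i' = blk i).card = q.1.2 then
        ev h.choose q.2
      else 0 with hF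
  have key : ∀ s ∈ S, ∃ q, F q s ≠ 0 := by
    intro s hs
    rcases h1 s hs with ⟨β, hβ⟩ | ⟨i, hiK, hi⟩
    · have h2 : ∃ e, (∑ i with blk i = β, s i) e ≠ 0 := by
        by_contra hc
        push Not at hc
        exact hβ (funext hc)
      obtain ⟨e, he⟩ := h2
      refine ⟨((β, ⟨K, by omega⟩), e), ?_⟩
      rw [hF]
      simp only [if_true]
      rw [LinearMap.sum_apply]
      simp only [hevx]
      rw [Finset.sum_apply] at he
      exact he
    · have h2 : ∃ e, s i e ≠ 0 := by
        by_contra hc
        push Not at hc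
        exact hi (funext hc)
      obtain ⟨e, he⟩ := h2
      refine ⟨((blk i, ⟨_, Nat.lt_succ_of_lt hiK⟩), e), ?_⟩
      have hex : ∃ i0, blk i0 = blk i ∧
          ((Finset.univ : Finset (Fin n)).filter fun i' => i' < i0 ∧ blk i' = blk i0).card =
          ((Finset.univ : Finset (Fin n)).filter fun i' => i' < i ∧ blk i' = blk i).card :=
        ⟨i, rfl, rfl⟩
      rw [hF]
      simp only [if_neg (Nat.ne_of_lt hiK), dif_pos hex]
      have h3 : hex.choose = i :=
        Pool.Agent.ZPT.Gen.pos_inj blk hex.choose_spec.1 hex.choose_spec.2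
      rw [h3, hevx]
      exact he
  refine ⟨fun j => F ((finProdFinEquiv.prodCongr (Equiv.refl _)).symm (finProdFinEquiv.symm j)),
    fun s hs => ?_⟩
  obtain ⟨q, hq⟩ := key s hs
  refine ⟨finProdFinEquiv ((finProdFinEquiv.prodCongr (Equiv.refl _)) q), ?_⟩
  simp only [Equiv.symm_apply_apply]
  exact hq

end Pool.Agent.Results.MP_e4b685_co.SymmetricSets
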